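import Pool.Agent.Lib.CMT.Iface

/-!
# CMT, part D: `Γ(n)` has finite index in `Γ(1)`
-/

set_option autoImplicit false

namespace CMT.D

open NumberField

variable {F : Type} [Field F] [NumberField F]

/-- The residues of the integral elements modulo `n`. -/
theorem exists_res (F : Type) [Field F] [NumberField F] (n : ℕ) (hn : 0 < n) :
    ∃ (Q : Type) (_ : Finite Q) (r : F → Q), ∀ x y : F, IsIntegral ℤ x → IsIntegral ℤ y → r x = r y →
      ∃ z : F, IsIntegral ℤ z ∧ x - y = (n : F) * z := by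
  classical
  obtain ⟨I, hI⟩ : ∃ I : Ideal (𝓞 F), I = Ideal.span {(n : 𝓞 F)} := ⟨_, rfl⟩
  have hI0 : I ≠ ⊥ := by
    rw [hI]
    intro h
    rw [Ideal.span_singleton_eq_bot] at h
    exact hn.ne' (Nat.cast_eq_zero.1 h)
  have hfin : Finite (𝓞 F ⧸ I) := Ideal.finiteQuotientOfFreeOfNeBot I hI0
  refine ⟨𝓞 F ⧸ I, hfin, fun x => if h : IsIntegral ℤ x then Ideal.Quotient.mk I ⟨x, h⟩ else 0, ?_⟩
  intro x y hx hy h
  simp only [dif_pos hx, dif_pos hy] at h
  have h1 := (Ideal.Quotient.eq).1 h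
  rw [hI, Ideal.mem_span_singleton] at h1
  obtain ⟨z, hz⟩ := h1
  refine ⟨algebraMap (𝓞 F) F z, z.2, ?_⟩
  have e : algebraMap (𝓞 F) F (⟨x, hx⟩ - ⟨y, hy⟩) = x - y := rfl
  rw [← e, hz, map_mul, map_natCast]

theorem one_entry (D : Dat F) {g : SG D} (hg : g ∈ Gam D 1) (i j : Fin 3) : g.1 i j ∈ RR D :=
  isCong_entry D hg.2 i j

/-- Elements of `Γ(1)` which are congruent modulo `n`. -/
theorem cong_mul (D : Dat F) (n : ℕ) {g k : SG D} (hg : g ∈ Gam D 1) (hk : k ∈ Gam D 1)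
    (Y : Matrix (Fin 3) (Fin 3) (KD D)) (hY : ∀ i j, Y i j ∈ RR D) (h : g.1 - k.1 = (n : KD D) • Y) :
    k⁻¹ * g ∈ Gam D n := by
  have hkg : k⁻¹ * g ∈ Gam D 1 := (Gam D 1).mul_mem ((Gam D 1).inv_mem hk) hg
  refine ⟨hkg.1, (k⁻¹).1 * Y, ?_, ?_⟩
  · intro i j
    rw [Matrix.mul_apply]
    exact (RR D).sum_mem fun l _ => (RR D).mul_mem (one_entry D ((Gam D 1).inv_mem hk) i l) (hY l j)
  · have h1 : (k⁻¹).1 * k.1 = 1 := congrArg Subtype.val (inv_mul_cancel k)
    have h2 : (k⁻¹ * g).1 = (k⁻¹).1 * g.1 := rfl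
    have h3 : g.1 = k.1 + (n : KD D) • Y := by
      rw [← h]
      abel
    rw [h2, h3, Matrix.mul_add, h1, Matrix.mul_smul]

end CMT.D

namespace CMT

open CMT.D

/-- **`Γ(n)` has finite index in `Γ(1)`.** -/
theorem thmIdx : S_Idx := by
  classical
  intro F _ _ D n hn
  obtain ⟨Q, hQ, r, hr⟩ := exists_res F n hn
  obtain ⟨H, hH⟩ : ∃ H : Subgroup (Gam D 1), H = (Gam D n).subgroupOf (Gam D 1) := ⟨_, rfl⟩
  have hH' : ∀ g : Gam D 1, g ∈ H ↔ (g : SG D) ∈ Gam D n := by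
    intro g
    rw [hH]
    exact Subgroup.mem_subgroupOf
  let f : Gam D 1 → (Fin 3 → Fin 3 → Q × Q) := fun g i j => (r ((g : SG D).1 i j).re, r ((g : SG D).1 i j).im)
  have hf : ∀ g k : Gam D 1, f g = f k → (QuotientGroup.mk k : Gam D 1 ⧸ H) = QuotientGroup.mk g := by
    intro g k hgk
    have h1 : ∀ i j, ∃ y : KD D, y ∈ RR D ∧ (g : SG D).1 i j - (k : SG D).1 i j = (n : KD D) * y := by
      intro i j
      have h2 : f g i j = f k i j := by rw [hgk]
      have h3 := Prod.ext_iff.1 h2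
      have hgi := one_entry D g.2 i j
      have hki := one_entry D k.2 i j
      obtain ⟨a, ha, ha'⟩ := hr _ _ hgi.1 hki.1 h3.1
      obtain ⟨b, hb, hb'⟩ := hr _ _ hgi.2 hki.2 h3.2
      refine ⟨⟨a, b⟩, ⟨ha, hb⟩, ?_⟩
      have hnr : ((n : KD D)).re = (n : F) := by simp
      have hni : ((n : KD D)).im = 0 := by simp
      apply QuadraticAlgebra.ext
      · rw [QuadraticAlgebra.re_sub, QuadraticAlgebra.re_mul, hnr, hni, ha']
        ring
      · rw [QuadraticAlgebra.im_sub, QuadraticAlgebra.im_mul, hnr, hni, hb']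
        ring
    choose Y hY hY' using h1
    have h4 := cong_mul D n g.2 k.2 (Matrix.of Y) hY (Matrix.ext fun i j => by
      rw [Matrix.sub_apply, Matrix.smul_apply, smul_eq_mul]
      exact hY' i j)
    rw [QuotientGroup.eq, hH']
    exact h4
  have hfin : Finite (Gam D 1 ⧸ H) := by
    refine Finite.of_surjective (fun y : Set.range f => (QuotientGroup.mk y.2.choose : Gam D 1 ⧸ H)) ?_
    intro q
    obtain ⟨g, rfl⟩ := QuotientGroup.mk_surjective q
    refine ⟨⟨f g, g, rfl⟩, ?_⟩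
    have h5 := (⟨g, rfl⟩ : f g ∈ Set.range f).choose_spec
    exact hf g _ h5.symm
  have h6 : H.index ≠ 0 := Subgroup.index_ne_zero_of_finite
  rw [hH] at h6
  exact h6

end CMT
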