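import Mathlib

/-!
# Weights for a properly discontinuous cocompact action

`ρ g : E → E`, `g` in a group `G`, acts on the open set `U` of the locally compact space `E`, properly
discontinuously, and `U = G C` with `C` compact. Then there is a continuous function `χ ≥ 0` on `E` with compact
support in `U` such that `∑_g χ(ρ g z) = 1` for all `z` in `U`.
-/

set_option autoImplicit false

open Set Topology

namespace CMT.D

/-- `ρ` is a properly discontinuous action of `G` on the set `U`, by continuous maps. -/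
structure PdAct {G E : Type*} [Group G] [TopologicalSpace E] (U : Set E) (ρ : G → E → E) : Prop where
  maps : ∀ g, ∀ z ∈ U, ρ g z ∈ U
  one : ∀ z ∈ U, ρ 1 z = z
  mul : ∀ g h, ∀ z ∈ U, ρ (g * h) z = ρ g (ρ h z)
  cont : ∀ g, ContinuousOn (ρ g) U
  fin : ∀ C, IsCompact C → C ⊆ U → {g : G | ∃ z ∈ C, ρ g z ∈ C}.Finite

/-- `χ` is a weight of the action `ρ` of `G` on `U`: continuous, nonnegative, of compact support in `U`, and the
sum of the translates is `1` on `U`. -/
structure IsWt {G E : Type*} [Group G] [TopologicalSpace E] (U : Set E) (ρ : G → E → E) (χ : E → ℝ) :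
    Prop where
  cont : Continuous χ
  comp : HasCompactSupport χ
  supp : tsupport χ ⊆ U
  nonneg : ∀ z, 0 ≤ χ z
  sum : ∀ z ∈ U, HasSum (fun g : G => χ (ρ g z)) 1

variable {G E : Type*} [Group G] [TopologicalSpace E]

theorem PdAct.restrict {U : Set E} {ρ : G → E → E} (h : PdAct U ρ) (H : Subgroup G) :
    PdAct U (fun (g : H) => ρ (g : G)) where
  maps g z hz := h.maps g z hz
  one z hz := h.one z hz
  mul g g' z hz := h.mul g g' z hz
  cont g := h.cont g
  fin C hC hCU := by
    have h1 := h.fin C hC hCU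
    exact Set.Finite.of_finite_image (f := fun g : H => (g : G))
      (h1.subset (by
        rintro _ ⟨g, ⟨z, hz, hz'⟩, rfl⟩
        exact ⟨z, hz, hz'⟩)) (Subtype.val_injective.injOn)

theorem PdAct.inv {U : Set E} {ρ : G → E → E} (h : PdAct U ρ) (g : G) {z : E} (hz : z ∈ U) :
    ρ g⁻¹ (ρ g z) = z := by
  rw [← h.mul _ _ z hz, inv_mul_cancel, h.one z hz]

theorem PdAct.inv' {U : Set E} {ρ : G → E → E} (h : PdAct U ρ) (g : G) {z : E} (hz : z ∈ U) :
    ρ g (ρ g⁻¹ z) = z := by
  rw [← h.mul _ _ z hz, mul_inv_cancel, h.one z hz]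

/-- For `u` of compact support in `U` and `C` compact in `U` only finitely many `u(ρ g z)`, `z` in `C`, are not
zero. -/
theorem PdAct.finSupp {U : Set E} {ρ : G → E → E} (h : PdAct U ρ) {u : E → ℝ}
    (hu : HasCompactSupport u) (huU : tsupport u ⊆ U) {C : Set E} (hC : IsCompact C) (hCU : C ⊆ U) :
    {g : G | ∃ z ∈ C, ρ g z ∈ tsupport u}.Finite := by
  refine (h.fin (C ∪ tsupport u) (hC.union hu) (union_subset hCU huU)).subset ?_
  rintro g ⟨z, hz, hz'⟩
  exact ⟨z, Or.inl hz, Or.inr hz'⟩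

theorem PdAct.finZ {U : Set E} {ρ : G → E → E} (h : PdAct U ρ) {u : E → ℝ}
    (hu : HasCompactSupport u) (huU : tsupport u ⊆ U) {z : E} (hz : z ∈ U) :
    (Function.support fun g : G => u (ρ g z)).Finite := by
  refine (h.finSupp hu huU (isCompact_singleton (x := z)) (by
    rintro _ rfl
    exact hz)).subset ?_
  intro g hg
  exact ⟨z, rfl, subset_tsupport u hg⟩

/-- The sum over the group. -/
noncomputable def avg (ρ : G → E → E) (u : E → ℝ) (z : E) : ℝ := ∑ᶠ g : G, u (ρ g z)

theorem PdAct.avg_inv {U : Set E} {ρ : G → E → E} (h : PdAct U ρ) (u : E → ℝ) (g : G) {z : E}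
    (hz : z ∈ U) : avg ρ u (ρ g z) = avg ρ u z := by
  unfold avg
  have e : ∀ g' : G, u (ρ g' (ρ g z)) = u (ρ (Equiv.mulRight g g') z) := by
    intro g'
    rw [Equiv.coe_mulRight, h.mul _ _ z hz]
  rw [finsum_congr e]
  exact finsum_comp_equiv (Equiv.mulRight g) (f := fun g' => u (ρ g' z))

theorem PdAct.avg_cont [T2Space E] [LocallyCompactSpace E] {U : Set E} {ρ : G → E → E} (h : PdAct U ρ)
    (hU : IsOpen U) {u : E → ℝ} (huc : Continuous u) (hu : HasCompactSupport u)
    (huU : tsupport u ⊆ U) : ContinuousOn (avg ρ u) U := by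
  intro z hz
  obtain ⟨V, hV, hzV, hVU⟩ := exists_compact_subset hU hz
  have hfin := h.finSupp hu huU hV hVU
  have hon : ContinuousOn (fun z => ∑ g ∈ hfin.toFinset, u (ρ g z)) U :=
    continuousOn_finsetSum _ fun g _ => huc.comp_continuousOn (h.cont g)
  refine (hon z hz).congr_of_eventuallyEq ?_ ?_
  · filter_upwards [mem_nhdsWithin_of_mem_nhds (mem_interior_iff_mem_nhds.1 hzV)] with y hy
    refine finsum_eq_sum_of_support_subset _ ?_
    intro g hg
    exact hfin.mem_toFinset.2 ⟨y, hy, subset_tsupport u hg⟩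
  · refine finsum_eq_sum_of_support_subset _ ?_
    intro g hg
    exact hfin.mem_toFinset.2 ⟨z, interior_subset hzV, subset_tsupport u hg⟩

theorem PdAct.avg_pos {U : Set E} {ρ : G → E → E} (h : PdAct U ρ) {u : E → ℝ}
    (hu : HasCompactSupport u) (huU : tsupport u ⊆ U) (h0 : ∀ z, 0 ≤ u z) {z : E} (hz : z ∈ U)
    (hp : ∃ g, 0 < u (ρ g z)) : 0 < avg ρ u z := by
  obtain ⟨g, hg⟩ := hp
  exact finsum_pos (fun g => h0 _) ⟨g, hg⟩ (h.finZ hu huU hz)

/-- **Weights exist.** -/
theorem PdAct.exists_wt [T2Space E] [LocallyCompactSpace E] {U : Set E} {ρ : G → E → E} (h : PdAct U ρ)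
    (hU : IsOpen U) (C : Set E) (hC : IsCompact C) (hCU : C ⊆ U) (hcov : ∀ z ∈ U, ∃ g, ρ g z ∈ C) :
    ∃ χ : E → ℝ, IsWt U ρ χ := by
  obtain ⟨K, hK, hCK, hKU⟩ := exists_compact_between hC hU hCU
  obtain ⟨f, hf1, hf0, hfc, hf⟩ := exists_continuous_one_zero_of_isCompact hC
    (isOpen_interior (s := K)).isClosed_compl (disjoint_compl_right_iff_subset.2 hCK)
  have hsub : tsupport f ⊆ K := by
    refine closure_minimal ?_ hK.isClosed
    intro z hz
    by_contra hzK
    exact hz (hf0 (fun hi => hzK (interior_subset hi)))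
  have hfU : tsupport f ⊆ U := hsub.trans hKU
  have hf0' : ∀ z, 0 ≤ f z := fun z => (hf z).1
  have hpos : ∀ z ∈ U, 0 < avg ρ (f : E → ℝ) z := by
    intro z hz
    obtain ⟨g, hg⟩ := hcov z hz
    refine h.avg_pos hfc hfU hf0' hz ⟨g, ?_⟩
    rw [hf1 hg]
    exact one_pos
  have hct : tsupport (fun z => f z / avg ρ (f : E → ℝ) z) ⊆ tsupport f := by
    refine closure_mono ?_
    intro z hz hz'
    exact hz (by simp only [hz', zero_div])
  refine ⟨fun z => f z / avg ρ (f : E → ℝ) z, ?_, ?_, hct.trans hfU, ?_, ?_⟩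
  · refine ContinuousOn.continuous_of_tsupport_subset ?_ hU (hct.trans hfU)
    exact f.continuous.continuousOn.div (h.avg_cont hU f.continuous hfc hfU)
      fun z hz => (hpos z hz).ne'
  · exact HasCompactSupport.of_support_subset_isCompact hfc (subset_closure.trans hct)
  · intro z
    exact div_nonneg (hf0' z) (finsum_nonneg fun g => hf0' _)
  · intro z hz
    have e : ∀ g : G, f (ρ g z) / avg ρ (f : E → ℝ) (ρ g z) = f (ρ g z) / avg ρ (f : E → ℝ) z := by
      intro g
      rw [h.avg_inv _ g hz]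
    have hfz := h.finZ hfc hfU hz
    have h1 : HasSum (fun g : G => f (ρ g z)) (avg ρ (f : E → ℝ) z) := by
      have e2 : avg ρ (f : E → ℝ) z = ∑ g ∈ hfz.toFinset, f (ρ g z) :=
        finsum_eq_sum _ hfz
      rw [e2]
      refine hasSum_sum_of_ne_finset_zero ?_
      intro g hg
      by_contra hne
      exact hg (hfz.mem_toFinset.2 hne)
    have h2 := h1.div_const (avg ρ (f : E → ℝ) z)
    rw [div_self (hpos z hz).ne'] at h2
    simp only [e]
    exact h2

end CMT.D
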