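import Mathlib

/-!
CMT/D/God (helper45).  Compactness of `Aut (L, β) \ Isom (β)` in the anisotropic case, abstract form.

`E` euclidean space, `L = span ℤ (range b)` a lattice, `β : E × E → ℝ^r` bilinear, integral on `L`,
nondegenerate.  If `g` runs through linear isometries of `β` with `|det g| = 1` and `‖g v‖ ≥ ε` on `L - 0`,
then `g = c γ⁻¹`, `γ ∈ Aut (L, β)`, `c` bounded.

Proof.  (1) Minkowski's first theorem gives `m` independent vectors `v` of `L` with `‖g v‖ ≤ R` (the body is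
`g⁻¹ T (unit ball)`, `T = a` on the span `U` of the first images and `c` on `Uᗮ`).
(2) the vectors of `L` with `‖g v‖ ≤ m R` generate `L`, and there are at most `N₀` of them.
(3) the Gram matrix takes finitely many values; equal Gram matrices give an isometry.
-/

open MeasureTheory Module Submodule Set

namespace CMT.God

variable {E : Type*} [NormedAddCommGroup E] [InnerProductSpace ℝ E] [FiniteDimensional ℝ E]

/-- the map `a` on `U` and `c` on `Uᗮ`. -/
noncomputable def stretch (U : Submodule ℝ E) (a c : ℝ) : E →ₗ[ℝ] E :=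
  a • (U.starProjection : E →ₗ[ℝ] E) + c • (LinearMap.id - (U.starProjection : E →ₗ[ℝ] E))

lemma stretch_apply (U : Submodule ℝ E) (a c : ℝ) (x : E) :
    stretch U a c x = a • U.starProjection x + c • (x - U.starProjection x) := rfl

lemma stretch_mem (U : Submodule ℝ E) (a c : ℝ) {x : E} (hx : x ∈ U) : stretch U a c x = a • x := by
  rw [stretch_apply, Submodule.starProjection_eq_self_iff.2 hx, sub_self, smul_zero, add_zero]

lemma det_stretch (U : Submodule ℝ E) (a c : ℝ) :
    LinearMap.det (stretch U a c) = a ^ finrank ℝ U * c ^ (finrank ℝ E - finrank ℝ U) := by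
  have he : U ≤ U.comap (stretch U a c) := by
    intro x hx
    rw [Submodule.mem_comap, stretch_mem U a c hx]
    exact U.smul_mem _ hx
  rw [LinearMap.det_eq_det_mul_det U _ he]
  have h1 : (stretch U a c).restrict he = a • LinearMap.id := by
    ext x
    simp only [LinearMap.coe_restrict_apply, LinearMap.smul_apply, LinearMap.id_coe, id_eq,
      Submodule.coe_smul]
    exact stretch_mem U a c x.2
  have h2 : U.mapQ U (stretch U a c) he = c • LinearMap.id := by
    ext x
    simp only [LinearMap.comp_apply, Submodule.mkQ_apply, Submodule.mapQ_apply,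
      LinearMap.smul_apply, LinearMap.id_coe, id_eq]
    rw [← Submodule.Quotient.mk_smul, Submodule.Quotient.eq, stretch_apply]
    have : a • U.starProjection x + c • (x - U.starProjection x) - c • x
        = (a - c) • U.starProjection x := by
      rw [smul_sub, sub_smul]; abel
    rw [this]
    exact U.smul_mem _ (Submodule.starProjection_apply_mem U x)
  rw [h1, h2, LinearMap.det_smul, LinearMap.det_smul, LinearMap.det_id, LinearMap.det_id, mul_one,
    mul_one]
  congr 2
  have := Submodule.finrank_quotient_add_finrank U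
  omega

/-- one step: a lattice vector `v` with `g v` bounded and outside `U`. -/
theorem step {ι : Type*} [Finite ι] (b : Basis ι ℝ E) {ε : ℝ} (hε : 0 < ε) (k : ℕ)
    (hk : k < finrank ℝ E) :
    ∃ R : ℝ, 0 < R ∧ ∀ g : E ≃ₗ[ℝ] E, |LinearMap.det (g : E →ₗ[ℝ] E)| = 1 →
      (∀ v ∈ span ℤ (range b), v ≠ 0 → ε ≤ ‖g v‖) → ∀ U : Submodule ℝ E, finrank ℝ U = k →
      ∃ v ∈ span ℤ (range b), g v ∉ U ∧ ‖g v‖ ≤ R := by
  classical
  borelize E
  set μ : Measure E := (Basis.ofVectorSpace ℝ E).addHaar with hμ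
  set m := finrank ℝ E with hm
  set a : ℝ := ε / 2 with ha
  have ha0 : 0 < a := by positivity
  set B : ENNReal := μ (Metric.closedBall (0 : E) 1) with hB
  have hB0 : B ≠ 0 := by
    have : 0 < B := by
      refine lt_of_lt_of_le ?_ (measure_mono Metric.ball_subset_closedBall)
      exact Metric.measure_ball_pos μ 0 one_pos
    exact this.ne'
  have hBt : B ≠ ⊤ := (isCompact_closedBall (0 : E) 1).measure_lt_top.ne
  set F := ZSpan.fundamentalDomain b with hF
  have hFt : μ F ≠ ⊤ := (ZSpan.fundamentalDomain_isBounded b).measure_lt_top.ne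
  -- choose c
  have hfin : μ F * 2 ^ m ≠ ⊤ := ENNReal.mul_ne_top hFt (by simp)
  obtain ⟨c, hc1, hc⟩ : ∃ c : ℝ, 1 ≤ c ∧ μ F * 2 ^ m < ENNReal.ofReal (a ^ k * c ^ (m - k)) * B := by
    set q : ℝ := ((μ F * 2 ^ m).toReal + 1) / (a ^ k * B.toReal) with hq
    have hBr : 0 < B.toReal := ENNReal.toReal_pos hB0 hBt
    have hq0 : 0 ≤ q := by positivity
    refine ⟨max 1 q, le_max_left _ _, ?_⟩
    have h1 : q ≤ (max 1 q) ^ (m - k) := by
      calc q ≤ max 1 q := le_max_right _ _
        _ = (max 1 q) ^ 1 := (pow_one _).symm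
        _ ≤ (max 1 q) ^ (m - k) := pow_le_pow_right₀ (le_max_left _ _) (by omega)
    have h2 : (μ F * 2 ^ m).toReal + 1 ≤ a ^ k * (max 1 q) ^ (m - k) * B.toReal := by
      calc (μ F * 2 ^ m).toReal + 1 = a ^ k * q * B.toReal := by
            rw [hq]; field_simp
        _ ≤ a ^ k * (max 1 q) ^ (m - k) * B.toReal := by gcongr
    rw [← ENNReal.ofReal_toReal hfin]
    conv_rhs => rw [← ENNReal.ofReal_toReal hBt]
    rw [← ENNReal.ofReal_mul (by positivity)]
    exact (ENNReal.ofReal_lt_ofReal_iff (by positivity)).2 (by linarith)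
  refine ⟨a + c, by positivity, fun g hg hmin U hU => ?_⟩
  set f : E →ₗ[ℝ] E := (g.symm : E →ₗ[ℝ] E) ∘ₗ stretch U a c with hf
  set s : Set E := f '' Metric.closedBall (0 : E) 1 with hs
  have hdet : |LinearMap.det f| = a ^ k * c ^ (m - k) := by
    rw [hf, LinearMap.det_comp, abs_mul, det_stretch, hU, ← hm]
    have h1 : |LinearMap.det (g.symm : E →ₗ[ℝ] E)| = 1 := by
      have h2 := LinearEquiv.det_mul_det_symm g
      have h3 : |LinearMap.det (g : E →ₗ[ℝ] E)| * |LinearMap.det (g.symm : E →ₗ[ℝ] E)| = 1 := by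
        rw [← abs_mul, h2, abs_one]
      rwa [hg, one_mul] at h3
    rw [h1, one_mul, abs_of_nonneg (by positivity)]
  have hvol : μ F * 2 ^ finrank ℝ E < μ s := by
    rw [hs, Measure.addHaar_image_linearMap, hdet]
    exact hc
  have hconv : Convex ℝ s := (convex_closedBall (0 : E) 1).linear_image f
  have hsymm : ∀ x ∈ s, -x ∈ s := by
    rintro _ ⟨y, hy, rfl⟩
    exact ⟨-y, by simpa using hy, by rw [map_neg]⟩
  have fund := ZSpan.isAddFundamentalDomain' b μ
  have : Countable (span ℤ (range b)).toAddSubgroup :=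
    inferInstanceAs (Countable (span ℤ (range b)))
  obtain ⟨⟨v, hv⟩, hv0, hvs⟩ :=
    exists_ne_zero_mem_lattice_of_measure_mul_two_pow_lt_measure fund hsymm hconv hvol
  obtain ⟨y, hy, hyv⟩ := hvs
  have hy1 : ‖y‖ ≤ 1 := by simpa using hy
  have hvne : v ≠ 0 := fun h => hv0 (Subtype.ext h)
  have hgv : g v = a • U.starProjection y + c • (y - U.starProjection y) := by
    have : v = g.symm (stretch U a c y) := hyv.symm
    rw [this, LinearEquiv.apply_symm_apply, stretch_apply]
  have hp : ‖U.starProjection y‖ ≤ 1 := (U.norm_starProjection_apply_le y).trans hy1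
  have hp' : ‖y - U.starProjection y‖ ≤ 1 := by
    have h1 : y - U.starProjection y = Uᗮ.starProjection y := by
      rw [Submodule.starProjection_orthogonal_val]
    rw [h1]
    exact (Uᗮ.norm_starProjection_apply_le y).trans hy1
  refine ⟨v, hv, fun hmem => ?_, ?_⟩
  · have h1 : U.starProjection (g v) = g v := Submodule.starProjection_eq_self_iff.2 hmem
    have h2 : U.starProjection (g v) = a • U.starProjection y := by
      rw [hgv, map_add, map_smul, map_smul, map_sub]
      have : U.starProjection (U.starProjection y) = U.starProjection y :=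
        Submodule.starProjection_eq_self_iff.2 (Submodule.starProjection_apply_mem U y)
      rw [this, sub_self, smul_zero, add_zero]
    have h3 : ‖g v‖ ≤ a := by
      rw [← h1, h2, norm_smul, Real.norm_of_nonneg ha0.le]
      nlinarith [norm_nonneg (U.starProjection y)]
    have h4 := hmin v hv hvne
    linarith
  · rw [hgv]
    refine (norm_add_le _ _).trans ?_
    rw [norm_smul, norm_smul, Real.norm_of_nonneg ha0.le, Real.norm_of_nonneg (by linarith)]
    have : 0 ≤ c := by linarith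
    nlinarith [norm_nonneg (U.starProjection y), norm_nonneg (y - U.starProjection y)]

/-- `k` independent lattice vectors with bounded images. -/
theorem short_indep {ι : Type*} [Finite ι] (b : Basis ι ℝ E) {ε : ℝ} (hε : 0 < ε) (k : ℕ)
    (hk : k ≤ finrank ℝ E) :
    ∃ R : ℝ, 0 < R ∧ ∀ g : E ≃ₗ[ℝ] E, |LinearMap.det (g : E →ₗ[ℝ] E)| = 1 →
      (∀ v ∈ span ℤ (range b), v ≠ 0 → ε ≤ ‖g v‖) →
      ∃ v : Fin k → E, LinearIndependent ℝ (fun i => g (v i)) ∧
        ∀ i, v i ∈ span ℤ (range b) ∧ ‖g (v i)‖ ≤ R := by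
  induction k with
  | zero =>
    exact ⟨1, one_pos, fun g _ _ => ⟨Fin.elim0, linearIndependent_empty_type, fun i => i.elim0⟩⟩
  | succ k ih =>
    obtain ⟨R, hR, H⟩ := ih (by omega)
    obtain ⟨R', hR', H'⟩ := step b hε k (by omega)
    refine ⟨max R R', by positivity, fun g hg hmin => ?_⟩
    obtain ⟨v, hv, hv'⟩ := H g hg hmin
    obtain ⟨w, hw, hwU, hwR⟩ := H' g hg hmin (span ℝ (range fun i => g (v i)))
      (by rw [finrank_span_eq_card hv, Fintype.card_fin])
    refine ⟨Fin.snoc v w, ?_, ?_⟩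
    · have h1 : (fun i => g ((Fin.snoc v w : Fin (k + 1) → E) i))
          = Fin.snoc (fun i => g (v i)) (g w) := by
        funext i
        refine Fin.lastCases ?_ (fun j => ?_) i
        · simp
        · simp
      rw [h1]
      exact linearIndependent_finSnoc.2 ⟨hv, hwU⟩
    · intro i
      refine Fin.lastCases ?_ (fun j => ?_) i
      · simpa using ⟨hw, Or.inr hwR⟩
      · simpa using ⟨(hv' j).1, Or.inl (hv' j).2⟩

/-- A bounded family of lattice vectors which generates `L`, of length independent of `g`. -/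
theorem exists_gen {ι : Type*} [Finite ι] (b : Basis ι ℝ E) {ε : ℝ} (hε : 0 < ε) :
    ∃ (N : ℕ) (r : ℝ), 0 < r ∧ ∀ g : E ≃ₗ[ℝ] E, |LinearMap.det (g : E →ₗ[ℝ] E)| = 1 →
      (∀ v ∈ span ℤ (range b), v ≠ 0 → ε ≤ ‖g v‖) →
      ∃ v : Fin N → E, (∀ i, ‖g (v i)‖ ≤ r) ∧ span ℤ (range v) = span ℤ (range b) ∧
        span ℝ (range v) = ⊤ := by
  classical
  set m := finrank ℝ E with hm
  obtain ⟨R, hR, H⟩ := short_indep b hε m le_rfl
  set r : ℝ := (m + 1) * R with hr
  have hr0 : 0 < r := by positivity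
  -- a finite cover of the closed ball by balls of radius ε/2
  obtain ⟨t, ht, hcov⟩ : ∃ t : Finset E, (∀ x ∈ t, True) ∧
      Metric.closedBall (0 : E) r ⊆ ⋃ x ∈ t, Metric.ball x (ε / 2) := by
    obtain ⟨t, -, h⟩ := (isCompact_closedBall (0 : E) r).elim_finite_subcover_image
      (b := univ) (c := fun x : E => Metric.ball x (ε / 2)) (fun _ _ => Metric.isOpen_ball)
      (fun x _ => mem_iUnion₂.2 ⟨x, mem_univ _, Metric.mem_ball_self (by positivity)⟩)
    refine ⟨h.1.toFinset, fun _ _ => trivial, ?_⟩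
    simpa using h.2
  refine ⟨t.card, r, hr0, fun g hg hmin => ?_⟩
  obtain ⟨u, hu, hu'⟩ := H g hg hmin
  let e := t.equivFin
  let L := span ℤ (range b)
  let P : Fin t.card → E → Prop := fun i v => v ∈ L ∧ ‖g v‖ ≤ r ∧ g v ∈ Metric.ball ((e.symm i : E)) (ε / 2)
  let v : Fin t.card → E := fun i => if h : ∃ v, P i v then h.choose else 0
  have hvL : ∀ i, v i ∈ L := by
    intro i
    by_cases h : ∃ v, P i v
    · simp only [v, dif_pos h]; exact h.choose_spec.1
    · simp only [v, dif_neg h]; exact L.zero_mem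
  have hvr : ∀ i, ‖g (v i)‖ ≤ r := by
    intro i
    by_cases h : ∃ v, P i v
    · simp only [v, dif_pos h]; exact h.choose_spec.2.1
    · simp only [v, dif_neg h]; simpa using hr0.le
  have hall : ∀ w ∈ L, ‖g w‖ ≤ r → w ∈ range v := by
    intro w hw hwr
    have h1 : g w ∈ ⋃ x ∈ t, Metric.ball x (ε / 2) := hcov (by simpa using hwr)
    obtain ⟨x, hx, hxw⟩ := mem_iUnion₂.1 h1
    set i := e ⟨x, hx⟩ with hi
    have h2 : P i w := ⟨hw, hwr, by simpa [hi] using hxw⟩
    have h : ∃ v, P i v := ⟨w, h2⟩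
    refine ⟨i, ?_⟩
    simp only [v, dif_pos h]
    by_contra hne
    have h3 := h.choose_spec
    have h4 := hmin (h.choose - w) (L.sub_mem h3.1 hw) (sub_ne_zero.2 hne)
    have h5 : ‖g (h.choose - w)‖ < ε := by
      rw [map_sub, ← dist_eq_norm]
      calc dist (g h.choose) (g w) ≤ dist (g h.choose) (e.symm i : E) + dist (g w) (e.symm i : E) :=
            dist_triangle_right _ _ _
        _ < ε / 2 + ε / 2 := add_lt_add h3.2.2 h2.2.2
        _ = ε := by ring
    linarith
  have hu_range : ∀ i, u i ∈ range v := fun i => hall _ (hu' i).1 ((hu' i).2.trans (by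
    rw [hr]; nlinarith [(Nat.cast_nonneg m : (0 : ℝ) ≤ m)]))
  have hui : LinearIndependent ℝ u := (LinearMap.linearIndependent_iff (g : E →ₗ[ℝ] E)
    (LinearEquiv.ker g)).1 hu
  have hspanu : span ℝ (range u) = ⊤ := by
    refine hui.span_eq_top_of_card_eq_finrank' ?_
    rw [Fintype.card_fin]
  refine ⟨v, hvr, le_antisymm ?_ ?_, ?_⟩
  · rw [span_le]
    rintro _ ⟨i, rfl⟩
    exact hvL i
  · intro w hw
    -- subtract the integral part in the coordinates of `u`
    let bu : Basis (Fin m) ℝ E := Basis.mk hui hspanu.ge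
    let w' : E := ∑ j, (⌊bu.repr w j⌋ : ℤ) • u j
    have hw'L : w' ∈ L := Submodule.sum_mem _ fun j _ => L.smul_mem _ (hu' j).1
    have hw'v : w' ∈ span ℤ (range v) :=
      Submodule.sum_mem _ fun j _ => Submodule.smul_mem _ _ (subset_span (hu_range j))
    have h1 : w - w' = ∑ j, (Int.fract (bu.repr w j)) • u j := by
      have h2 : w = ∑ j, (bu.repr w j) • u j := by
        conv_lhs => rw [← bu.sum_repr w]
        simp [bu]
      conv_lhs => rw [h2]
      simp only [w', ← Finset.sum_sub_distrib]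
      refine Finset.sum_congr rfl fun j _ => ?_
      rw [Int.fract, sub_smul, Int.cast_smul_eq_zsmul]
    have h2 : ‖g (w - w')‖ ≤ r := by
      rw [h1, map_sum]
      refine (norm_sum_le _ _).trans ?_
      calc ∑ j, ‖g (Int.fract (bu.repr w j) • u j)‖ ≤ ∑ _j : Fin m, R := by
            refine Finset.sum_le_sum fun j _ => ?_
            rw [map_smul, norm_smul, Real.norm_of_nonneg (Int.fract_nonneg _)]
            have := (Int.fract_lt_one (bu.repr w j)).le
            nlinarith [(hu' j).2, norm_nonneg (g (u j)), Int.fract_nonneg (bu.repr w j)]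
        _ = m * R := by simp
        _ ≤ r := by rw [hr]; nlinarith
    have h3 := hall (w - w') (L.sub_mem hw hw'L) h2
    have h4 : w = (w - w') + w' := by abel
    rw [h4]
    exact Submodule.add_mem _ (subset_span h3) hw'v
  · rw [eq_top_iff, ← hspanu, span_le]
    rintro _ ⟨i, rfl⟩
    exact subset_span (hu_range i)

/-- An extension of `v₀ i ↦ v i` to a linear isometry of `β`, given equal Gram matrices. -/
theorem extend {N r : ℕ} (β : E →ₗ[ℝ] E →ₗ[ℝ] (Fin r → ℝ)) (hnd : ∀ x, (∀ y, β x y = 0) → x = 0)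
    (v₀ v : Fin N → E) (h₀ : span ℝ (range v₀) = ⊤) (h : span ℝ (range v) = ⊤)
    (hG : ∀ i j, β (v i) (v j) = β (v₀ i) (v₀ j)) :
    ∃ γ : E ≃ₗ[ℝ] E, (∀ i, γ (v₀ i) = v i) ∧ ∀ x y, β (γ x) (γ y) = β x y := by
  classical
  -- the value of `γ` on linear combinations
  have key : ∀ c : Fin N → ℝ, (∑ i, c i • v₀ i) = 0 → (∑ i, c i • v i) = 0 := by
    intro c hc
    apply hnd
    have h1 : ∀ j, β (∑ i, c i • v i) (v j) = 0 := by
      intro j
      have : β (∑ i, c i • v i) (v j) = β (∑ i, c i • v₀ i) (v₀ j) := by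
        simp only [map_sum, map_smul, LinearMap.sum_apply, LinearMap.smul_apply, hG]
      rw [this, hc, map_zero, LinearMap.zero_apply]
    have h2 : (β (∑ i, c i • v i)) = 0 := by
      refine LinearMap.ext_on h ?_
      rintro _ ⟨j, rfl⟩
      simpa using h1 j
    intro y
    rw [h2, LinearMap.zero_apply]
  let T : (Fin N → ℝ) →ₗ[ℝ] E := Fintype.linearCombination ℝ v
  let T₀ : (Fin N → ℝ) →ₗ[ℝ] E := Fintype.linearCombination ℝ v₀
  have hT₀ : LinearMap.range T₀ = ⊤ := by
    rw [← h₀]; exact Fintype.range_linearCombination ℝ v₀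
  obtain ⟨S, hS⟩ := T₀.exists_rightInverse_of_surjective hT₀
  have hS' : ∀ x, T₀ (S x) = x := fun x => by
    have := LinearMap.congr_fun hS x
    simpa using this
  let γ₀ : E →ₗ[ℝ] E := T ∘ₗ S
  have hγ : ∀ c, γ₀ (T₀ c) = T c := by
    intro c
    have h1 : T₀ (S (T₀ c) - c) = 0 := by rw [map_sub, hS', sub_self]
    have h2 : T (S (T₀ c) - c) = 0 := by
      have := key (S (T₀ c) - c) (by simpa [T₀, Fintype.linearCombination_apply] using h1)
      simpa [T, Fintype.linearCombination_apply] using this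
    rw [map_sub, sub_eq_zero] at h2
    exact h2
  have hγv : ∀ i, γ₀ (v₀ i) = v i := by
    intro i
    have h1 : T₀ (Pi.single i 1) = v₀ i := by simp [T₀]
    have h2 : T (Pi.single i 1) = v i := by simp [T]
    rw [← h1, hγ, h2]
  have hβ : ∀ x y, β (γ₀ x) (γ₀ y) = β x y := by
    have h1 : ∀ i, (β (γ₀ (v₀ i))) ∘ₗ γ₀ = β (v₀ i) := by
      intro i
      refine LinearMap.ext_on h₀ ?_
      rintro _ ⟨j, rfl⟩
      simp only [LinearMap.comp_apply, hγv, hG]
    have h2 : ∀ y, (β.flip (γ₀ y)) ∘ₗ γ₀ = β.flip y := by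
      intro y
      refine LinearMap.ext_on h₀ ?_
      rintro _ ⟨i, rfl⟩
      have := LinearMap.congr_fun (h1 i) y
      simpa only [LinearMap.comp_apply, LinearMap.flip_apply] using this
    intro x y
    have := LinearMap.congr_fun (h2 y) x
    simpa only [LinearMap.comp_apply, LinearMap.flip_apply] using this
  have hinj : Function.Injective γ₀ := by
    rw [injective_iff_map_eq_zero]
    intro x hx
    apply hnd
    intro y
    rw [← hβ, hx, map_zero, LinearMap.zero_apply]
  refine ⟨LinearEquiv.ofInjectiveEndo γ₀ hinj, fun i => ?_, fun x y => ?_⟩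
  · exact hγv i
  · exact hβ x y

/-- **Godement compactness, abstract anisotropic form.** -/
theorem godement_abs {ι : Type*} [Finite ι] (b : Basis ι ℝ E) {r : ℕ}
    (β : E →ₗ[ℝ] E →ₗ[ℝ] (Fin r → ℝ))
    (hint : ∀ x ∈ span ℤ (range b), ∀ y ∈ span ℤ (range b), ∀ i, ∃ n : ℤ, β x y i = n)
    (hnd : ∀ x, (∀ y, β x y = 0) → x = 0) {ε : ℝ} (hε : 0 < ε) :
    ∃ C : ℝ, ∀ g : E ≃ₗ[ℝ] E, (∀ x y, β (g x) (g y) = β x y) →
      |LinearMap.det (g : E →ₗ[ℝ] E)| = 1 →
      (∀ v ∈ span ℤ (range b), v ≠ 0 → ε ≤ ‖g v‖) →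
      ∃ γ : E ≃ₗ[ℝ] E, (∀ x y, β (γ x) (γ y) = β x y) ∧
        (∀ x, γ x ∈ span ℤ (range b) ↔ x ∈ span ℤ (range b)) ∧ ∀ x, ‖g (γ x)‖ ≤ C * ‖x‖ := by
  classical
  set L := span ℤ (range b) with hL
  obtain ⟨N, r₀, hr₀, H⟩ := exists_gen b hε
  let β' := β.toContinuousBilinearMap
  -- bound for Gram matrices
  obtain ⟨M, hM⟩ : ∃ M : ℕ, ∀ x y : E, ‖x‖ ≤ r₀ → ‖y‖ ≤ r₀ → ∀ k, |β x y k| ≤ M := by
    obtain ⟨M, hM⟩ := exists_nat_ge (‖β'‖ * r₀ * r₀)
    refine ⟨M, fun x y hx hy k => ?_⟩
    have h1 : ‖β' x y‖ ≤ ‖β'‖ * ‖x‖ * ‖y‖ := β'.le_opNorm₂ x y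
    have h2 : |β x y k| ≤ ‖β' x y‖ := norm_le_pi_norm (β' x y) k
    refine h2.trans (h1.trans (le_trans ?_ hM))
    gcongr
  -- the property for one Gram matrix
  let Pr : (Fin N → Fin N → Fin r → ℤ) → ℝ → Prop := fun D C =>
    ∀ g : E ≃ₗ[ℝ] E, (∀ x y, β (g x) (g y) = β x y) → ∀ v : Fin N → E, (∀ i, ‖g (v i)‖ ≤ r₀) →
      span ℤ (range v) = L → span ℝ (range v) = ⊤ → (∀ i j k, β (v i) (v j) k = D i j k) →
      ∃ γ : E ≃ₗ[ℝ] E, (∀ x y, β (γ x) (γ y) = β x y) ∧
        (∀ x, γ x ∈ L ↔ x ∈ L) ∧ ∀ x, ‖g (γ x)‖ ≤ C * ‖x‖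
  have hmono : ∀ D C C', C ≤ C' → Pr D C → Pr D C' := by
    intro D C C' hC h g hg v h1 h2 h3 h4
    obtain ⟨γ, hγ1, hγ2, hγ3⟩ := h g hg v h1 h2 h3 h4
    exact ⟨γ, hγ1, hγ2, fun x => (hγ3 x).trans (mul_le_mul_of_nonneg_right hC (norm_nonneg _))⟩
  have hone : ∀ D, ∃ C, Pr D C := by
    intro D
    by_cases hD : ∃ v₀ : Fin N → E, span ℤ (range v₀) = L ∧ span ℝ (range v₀) = ⊤ ∧
        (∀ i j k, β (v₀ i) (v₀ j) k = D i j k)
    · obtain ⟨v₀, hv₀L, hv₀, hv₀D⟩ := hD
      -- coordinates in `v₀`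
      let T₀ : (Fin N → ℝ) →ₗ[ℝ] E := Fintype.linearCombination ℝ v₀
      have hT₀ : LinearMap.range T₀ = ⊤ := by
        rw [← hv₀]; exact Fintype.range_linearCombination ℝ v₀
      obtain ⟨S, hS⟩ := T₀.exists_rightInverse_of_surjective hT₀
      have hS' : ∀ x, ∑ i, S x i • v₀ i = x := fun x => by
        have := LinearMap.congr_fun hS x
        simpa [T₀, Fintype.linearCombination_apply] using this
      let S' : E →L[ℝ] (Fin N → ℝ) := LinearMap.toContinuousLinearMap S
      refine ⟨N * (‖S'‖ * r₀), fun g hg v h1 h2 h3 h4 => ?_⟩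
      obtain ⟨γ, hγv, hγβ⟩ := extend β hnd v₀ v hv₀ h3 (fun i j => by
        funext k; rw [h4, hv₀D])
      refine ⟨γ, hγβ, fun x => ?_, fun x => ?_⟩
      · have hmap : L.map ((γ : E →ₗ[ℝ] E).restrictScalars ℤ) = L := by
          conv_lhs => rw [← hv₀L, Submodule.map_span, ← range_comp]
          rw [← h2]
          congr 2
          funext i
          exact hγv i
        constructor
        · intro hx
          rw [← hmap, Submodule.mem_map] at hx
          obtain ⟨y, hy, hyx⟩ := hx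
          have : y = x := γ.injective hyx
          rwa [← this]
        · intro hx
          rw [← hmap]
          exact Submodule.mem_map_of_mem hx
      · have h5 : g (γ x) = ∑ i, S x i • g (v i) := by
          conv_lhs => rw [← hS' x]
          simp only [map_sum, map_smul, hγv]
        rw [h5]
        refine (norm_sum_le _ _).trans ?_
        calc ∑ i, ‖S x i • g (v i)‖ ≤ ∑ _i : Fin N, ‖S'‖ * ‖x‖ * r₀ := by
              refine Finset.sum_le_sum fun i _ => ?_
              rw [norm_smul]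
              have h6 : ‖S x i‖ ≤ ‖S'‖ * ‖x‖ := (norm_le_pi_norm (S' x) i).trans (S'.le_opNorm x)
              exact mul_le_mul h6 (h1 i) (norm_nonneg _) (by positivity)
          _ = N * (‖S'‖ * r₀) * ‖x‖ := by simp; ring
    · refine ⟨0, fun g hg v h1 h2 h3 h4 => ?_⟩
      exact absurd ⟨v, h2, h3, h4⟩ hD
  choose C hC using hone
  have hfin : (Icc (fun _ _ _ => (-(M : ℤ)) : Fin N → Fin N → Fin r → ℤ)
      (fun _ _ _ => (M : ℤ))).Finite := Set.finite_Icc _ _
  obtain ⟨C₁, hC₁⟩ := (hfin.image C).bddAbove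
  refine ⟨C₁, fun g hg hdet hmin => ?_⟩
  obtain ⟨v, hv1, hv2, hv3⟩ := H g hdet hmin
  have hvL : ∀ i, v i ∈ L := fun i => by rw [hL, ← hv2]; exact subset_span ⟨i, rfl⟩
  choose D hD using fun i j k => hint (v i) (hvL i) (v j) (hvL j) k
  have hDmem : D ∈ Icc (fun _ _ _ => (-(M : ℤ)) : Fin N → Fin N → Fin r → ℤ)
      (fun _ _ _ => (M : ℤ)) := by
    have h6 : ∀ i j k, |((D i j k : ℤ) : ℝ)| ≤ M := by
      intro i j k
      rw [← hD, ← hg]
      exact hM _ _ (hv1 i) (hv1 j) k
    constructor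
    · intro i j k
      have := (abs_le.1 (h6 i j k)).1
      exact_mod_cast this
    · intro i j k
      have := (abs_le.1 (h6 i j k)).2
      exact_mod_cast this
  exact hmono D _ _ (hC₁ ⟨D, hDmem, rfl⟩) (hC D) g hg v hv1 hv2 hv3 hD

end CMT.God
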