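import Pool.Agent.Lib.CMT.B.Ball

/-!
PROJECT CMT, part D (cocompactness), module 3 (helper45): the matrix `Mz b z` with
`(Mz b z)ᴴ diag(1,1,-1) (Mz b z) = diag(1,1,-b)` and `‖Mz b z v‖² = Qz b z v`,
`Qz b z v = (v,v) + 2 |(v,ẑ)|² / (b - |z|²)`, and the invariance of `Qz`.
-/

namespace CMT.Cpt

open Matrix ComplexConjugate CMT.B

noncomputable section

/-- The real diagonal form `(1,1,-b)`. -/
def hb (b : ℝ) : Fin 3 → ℝ := ![1, 1, -b]

/-- `(v,v)`. -/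
def hv (b : ℝ) (v : Fin 3 → ℂ) : ℝ := ‖v 0‖ ^ 2 + ‖v 1‖ ^ 2 - b * ‖v 2‖ ^ 2

/-- `(ẑ,v)`. -/
def zv (b : ℝ) (z : ℂ × ℂ) (v : Fin 3 → ℂ) : ℂ :=
  z.1 * conj (v 0) + z.2 * conj (v 1) - (b : ℂ) * conj (v 2)

/-- `b - |z|²`. -/
def Nb (b : ℝ) (z : ℂ × ℂ) : ℝ := b - ‖z.1‖ ^ 2 - ‖z.2‖ ^ 2

/-- The majorant at the indefinite place. -/
def Qz (b : ℝ) (z : ℂ × ℂ) (v : Fin 3 → ℂ) : ℝ := hv b v + 2 * (‖zv b z v‖ ^ 2 / Nb b z)

lemma Nz_hb (b : ℝ) (z : ℂ × ℂ) : Nz (hb b) z = Nb b z := by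
  simp only [Nz, hb, Nb, Matrix.cons_val_zero, Matrix.cons_val_one, Matrix.cons_val]
  ring

lemma sum_hb (b : ℝ) (u v : Fin 3 → ℂ) :
    ∑ i, (hb b i : ℂ) * u i * conj (v i) =
      u 0 * conj (v 0) + u 1 * conj (v 1) - (b : ℂ) * (u 2 * conj (v 2)) := by
  rw [Fin.sum_univ_three]
  simp only [hb, Matrix.cons_val_zero, Matrix.cons_val_one, Matrix.cons_val, Complex.ofReal_one,
    Complex.ofReal_neg]
  ring

lemma sum_hb' (b : ℝ) (v : Fin 3 → ℂ) : ∑ i, hb b i * ‖v i‖ ^ 2 = hv b v := by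
  rw [Fin.sum_univ_three]
  simp only [hb, hv, Matrix.cons_val_zero, Matrix.cons_val_one, Matrix.cons_val]
  ring

lemma zv_eq (b : ℝ) (z : ℂ × ℂ) (v : Fin 3 → ℂ) :
    ∑ i, (hb b i : ℂ) * zh z i * conj (v i) = zv b z v := by
  rw [sum_hb, zh_zero, zh_one, zh_two, zv, one_mul]

/-- Invariance of the majorant. -/
theorem Qz_act {b : ℝ} {g : Matrix (Fin 3) (Fin 3) ℂ} (hg : IsU (hb b) g) {z : ℂ × ℂ}
    (hz : 0 < Nb b z) (v : Fin 3 → ℂ) : Qz b (act g z) (g *ᵥ v) = Qz b z v := by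
  have h0 : 0 < hb b 0 := by simp [hb]
  have h1 : 0 < hb b 1 := by simp [hb]
  have hz' : z ∈ ball (hb b) := by
    show 0 < Nz (hb b) z
    rw [Nz_hb]; exact hz
  have hj := jj_ne_zero h0 h1 hg hz'
  have e1 := isU_norm hg v
  rw [sum_hb', sum_hb'] at e1
  have e2 := isU_sesq hg (zh z) v
  rw [zv_eq, mulVec_zh hj] at e2
  have e3 : ∑ i, (hb b i : ℂ) * (jj g z • zh (act g z)) i * conj ((g *ᵥ v) i)
      = jj g z * zv b (act g z) (g *ᵥ v) := by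
    rw [← zv_eq, Finset.mul_sum]
    refine Finset.sum_congr rfl fun i _ => ?_
    rw [Pi.smul_apply, smul_eq_mul]
    ring
  rw [e3] at e2
  have e4 := Nz_act hg hj
  rw [Nz_hb, Nz_hb] at e4
  have hn : 0 < ‖jj g z‖ := norm_pos_iff.2 hj
  unfold Qz
  rw [e1, e4, ← e2, norm_mul]
  congr 2
  field_simp

variable (b : ℝ) (z : ℂ × ℂ)

/-- `s = √(b - |z|²)`. -/
def sz : ℝ := Real.sqrt (Nb b z)

/-- `κ = 1 / (s (√b + s))`. -/
def kz : ℝ := 1 / (sz b z * (Real.sqrt b + sz b z))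

/-- The matrix `g_z`. -/
def Mz : Matrix (Fin 3) (Fin 3) ℂ :=
  !![1 + (kz b z : ℂ) * (z.1 * conj z.1), (kz b z : ℂ) * (z.1 * conj z.2),
      -(z.1 * ((Real.sqrt b : ℝ) / (sz b z : ℝ)));
    (kz b z : ℂ) * (z.2 * conj z.1), 1 + (kz b z : ℂ) * (z.2 * conj z.2),
      -(z.2 * ((Real.sqrt b : ℝ) / (sz b z : ℝ)));
    conj z.1 / (sz b z : ℝ), conj z.2 / (sz b z : ℝ), -((b : ℂ) / (sz b z : ℝ))]

/-- `diag (1,1,-1)`. -/
def J3 : Matrix (Fin 3) (Fin 3) ℂ := diagonal ![1, 1, -1]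

variable {b z}

lemma Nb_pos_b (hz : 0 < Nb b z) : 0 < b := by
  unfold Nb at hz
  nlinarith [sq_nonneg ‖z.1‖, sq_nonneg ‖z.2‖]

theorem Mz_isom (hz : 0 < Nb b z) : (Mz b z)ᴴ * J3 * Mz b z = HM (hb b) := by
  have hb0 : 0 < b := Nb_pos_b hz
  have hs : 0 < sz b z := Real.sqrt_pos.2 hz
  have hr : 0 < Real.sqrt b := Real.sqrt_pos.2 hb0
  obtain ⟨r, hrr⟩ : ∃ r, Real.sqrt b = r := ⟨_, rfl⟩
  obtain ⟨s, hss⟩ : ∃ s, sz b z = s := ⟨_, rfl⟩
  have h1 : r ^ 2 = b := by rw [← hrr, Real.sq_sqrt hb0.le]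
  have h2 : s ^ 2 = b - ‖z.1‖ ^ 2 - ‖z.2‖ ^ 2 := by
    rw [← hss, sz, Real.sq_sqrt hz.le, Nb]
  rw [hrr] at hr
  rw [hss] at hs
  have hk : kz b z = 1 / (s * (r + s)) := by rw [kz, hrr, hss]
  obtain ⟨k, hkk⟩ : ∃ k, kz b z = k := ⟨_, rfl⟩
  have hk1 : k * (s * (r + s)) = 1 := by
    rw [← hkk, hk]; field_simp
  -- complex versions
  have c1 : (r : ℂ) ^ 2 = (b : ℂ) := by exact_mod_cast h1
  have c2 : (s : ℂ) ^ 2 = (b : ℂ) - z.1 * conj z.1 - z.2 * conj z.2 := by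
    rw [Complex.mul_conj, Complex.mul_conj, Complex.normSq_eq_norm_sq, Complex.normSq_eq_norm_sq]
    exact_mod_cast h2
  have c3 : (k : ℂ) * ((s : ℂ) * ((r : ℂ) + (s : ℂ))) = 1 := by exact_mod_cast hk1
  have hs' : (s : ℂ) ≠ 0 := by exact_mod_cast hs.ne'
  have hrs : (r : ℂ) + (s : ℂ) ≠ 0 := by
    have : r + s ≠ 0 := by positivity
    exact_mod_cast this
  -- E2 : s (1 + κ N) = r
  have E2 : (s : ℂ) * (1 + (k : ℂ) * (z.1 * conj z.1 + z.2 * conj z.2)) = r := by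
    have : z.1 * conj z.1 + z.2 * conj z.2 = (r : ℂ) ^ 2 - (s : ℂ) ^ 2 := by rw [c1, c2]; ring
    rw [this]
    linear_combination ((r : ℂ) - (s : ℂ)) * c3
  -- E1 : s² (2 κ + κ² N) = 1
  have E1 : (s : ℂ) ^ 2 * (2 * (k : ℂ) + (k : ℂ) ^ 2 * (z.1 * conj z.1 + z.2 * conj z.2)) = 1 := by
    have : z.1 * conj z.1 + z.2 * conj z.2 = (r : ℂ) ^ 2 - (s : ℂ) ^ 2 := by rw [c1, c2]; ring
    rw [this]
    linear_combination ((k : ℂ) * (s : ℂ) * ((r : ℂ) - (s : ℂ)) + 1) * c3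
  unfold Mz J3 HM hb
  rw [hkk, hss, hrr]
  generalize hz1 : conj z.1 = w1 at *
  generalize hz2 : conj z.2 = w2 at *
  have d1 : conj w1 = z.1 := by rw [← hz1, Complex.conj_conj]
  have d2 : conj w2 = z.2 := by rw [← hz2, Complex.conj_conj]
  ext i j
  fin_cases i <;> fin_cases j <;>
    simp only [Matrix.mul_apply, Fin.sum_univ_three, Matrix.conjTranspose_apply, Matrix.of_apply,
      Matrix.cons_val', Matrix.cons_val_zero, Matrix.cons_val_one, Matrix.cons_val,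
      Matrix.diagonal_apply, Fin.isValue, Fin.zero_eta, Fin.mk_one, Fin.reduceFinMk,
      Complex.star_def, map_add, map_mul, map_one, map_neg, map_div₀, Complex.conj_ofReal, hz1, hz2,
      d1, d2, Fin.reduceEq, if_true, if_false, mul_zero, add_zero, zero_add, mul_one,
      one_ne_zero, zero_ne_one, Complex.ofReal_one, Complex.ofReal_neg, mul_neg, neg_mul,
      neg_neg] <;>
    field_simp
  · linear_combination (z.1 * w1) * E1
  · linear_combination (z.1 * w2) * E1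
  · linear_combination (-(r : ℂ) * z.1) * E2 - z.1 * c1
  · linear_combination (z.2 * w1) * E1
  · linear_combination (z.2 * w2) * E1
  · linear_combination (-(r : ℂ) * z.2) * E2 - z.2 * c1
  · linear_combination (-(r : ℂ) * w1) * E2 - w1 * c1
  · linear_combination (-(r : ℂ) * w2) * E2 - w2 * c1
  · linear_combination (z.1 * w1 + z.2 * w2) * c1 + (b : ℂ) * c2

/-- `∑ ‖(M v)_i‖²`. -/
def sq3 (v : Fin 3 → ℂ) : ℝ := ∑ i, ‖v i‖ ^ 2

/-- `M` carries the form `h` to a form `diag (± 1)`. -/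
def IsFr (h : Fin 3 → ℝ) (M : Matrix (Fin 3) (Fin 3) ℂ) : Prop :=
  ∃ j : Fin 3 → ℝ, (∀ i, |j i| = 1) ∧ Mᴴ * diagonal (fun i => (j i : ℂ)) * M = HM h

lemma form_eq {h j : Fin 3 → ℝ} {M : Matrix (Fin 3) (Fin 3) ℂ}
    (hM : Mᴴ * diagonal (fun i => (j i : ℂ)) * M = HM h) (u v : Fin 3 → ℂ) :
    ∑ i, (j i : ℂ) * (M *ᵥ u) i * conj ((M *ᵥ v) i) = ∑ i, (h i : ℂ) * u i * conj (v i) := by
  have key : ∀ (k : Fin 3 → ℝ) (u v : Fin 3 → ℂ), ∑ i, (k i : ℂ) * u i * conj (v i)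
      = star v ⬝ᵥ (diagonal (fun i => (k i : ℂ)) *ᵥ u) := by
    intro k u v
    unfold dotProduct
    refine Finset.sum_congr rfl fun i _ => ?_
    rw [mulVec_diagonal, Pi.star_apply, Complex.star_def]
    ring
  rw [key, key, star_mulVec, mulVec_mulVec, ← dotProduct_mulVec, mulVec_mulVec,
    ← Matrix.mul_assoc, hM, HM]

lemma IsFr.det {h : Fin 3 → ℝ} {M : Matrix (Fin 3) (Fin 3) ℂ} (hM : IsFr h M) :
    ‖M.det‖ ^ 2 = |∏ i, h i| := by
  obtain ⟨j, hj, hM⟩ := hM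
  have h1 := congrArg (fun A => ‖Matrix.det A‖) hM
  simp only [HM, det_mul, det_diagonal, det_conjTranspose, norm_mul, norm_star, norm_prod,
    Complex.norm_real, Real.norm_eq_abs, hj, Finset.prod_const_one, mul_one] at h1
  rw [Finset.abs_prod, ← h1, pow_two]

lemma IsFr.form_le {h : Fin 3 → ℝ} {M : Matrix (Fin 3) (Fin 3) ℂ} (hM : IsFr h M)
    (u v : Fin 3 → ℂ) :
    ‖∑ i, (h i : ℂ) * u i * conj (v i)‖ ≤ (sq3 (M *ᵥ u) + sq3 (M *ᵥ v)) / 2 := by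
  obtain ⟨j, hj, hM⟩ := hM
  rw [← form_eq hM]
  refine (norm_sum_le _ _).trans ?_
  rw [sq3, sq3, ← Finset.sum_add_distrib, Finset.sum_div]
  refine Finset.sum_le_sum fun i _ => ?_
  rw [norm_mul, norm_mul, Complex.norm_real, Real.norm_eq_abs, hj, one_mul, RCLike.norm_conj]
  nlinarith [sq_nonneg (‖(M *ᵥ u) i‖ - ‖(M *ᵥ v) i‖)]

lemma isFr_Mz (hz : 0 < Nb b z) : IsFr (hb b) (Mz b z) := by
  refine ⟨![1, 1, -1], ?_, ?_⟩
  · intro i; fin_cases i <;> simp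
  · have : (diagonal (fun i => ((![1, 1, -1] : Fin 3 → ℝ) i : ℂ))) = J3 := by
      unfold J3
      congr 1
      funext i; fin_cases i <;> simp
    rw [this]; exact Mz_isom hz

lemma Mz_mulVec_two (v : Fin 3 → ℂ) : (Mz b z *ᵥ v) 2 = conj (zv b z v) / (sz b z : ℝ) := by
  simp only [Mz, mulVec, dotProduct, Fin.sum_univ_three, Matrix.of_apply, Matrix.cons_val', Matrix.cons_val_zero,
    Matrix.cons_val_one, Matrix.cons_val, zv, map_add, map_sub, map_mul, Complex.conj_conj,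
    Complex.conj_ofReal]
  ring

theorem sq3_Mz (hz : 0 < Nb b z) (v : Fin 3 → ℂ) : sq3 (Mz b z *ᵥ v) = Qz b z v := by
  have h1 : (Mz b z)ᴴ * diagonal (fun i => ((![1, 1, -1] : Fin 3 → ℝ) i : ℂ)) * Mz b z
      = HM (hb b) := by
    have : (diagonal (fun i => ((![1, 1, -1] : Fin 3 → ℝ) i : ℂ))) = J3 := by
      unfold J3
      congr 1
      funext i; fin_cases i <;> simp
    rw [this]; exact Mz_isom hz
  have h2 := form_eq h1 v v
  have h3 : ∀ (k : Fin 3 → ℝ) (w : Fin 3 → ℂ), ∑ i, (k i : ℂ) * w i * conj (w i) =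
      ((∑ i, k i * ‖w i‖ ^ 2 : ℝ) : ℂ) := by
    intro k w
    push_cast
    refine Finset.sum_congr rfl fun i _ => ?_
    rw [mul_assoc, Complex.mul_conj, Complex.normSq_eq_norm_sq]
    push_cast
    ring
  rw [h3, h3, sum_hb'] at h2
  have h4 : ∑ i, (![1, 1, -1] : Fin 3 → ℝ) i * ‖(Mz b z *ᵥ v) i‖ ^ 2 = hv b v := by
    exact_mod_cast h2
  rw [Fin.sum_univ_three] at h4
  simp only [Matrix.cons_val_zero, Matrix.cons_val_one, Matrix.cons_val] at h4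
  have hs : 0 < sz b z := Real.sqrt_pos.2 hz
  have h5 : ‖(Mz b z *ᵥ v) 2‖ ^ 2 = ‖zv b z v‖ ^ 2 / Nb b z := by
    rw [Mz_mulVec_two, norm_div, RCLike.norm_conj, Complex.norm_real, Real.norm_of_nonneg hs.le,
      div_pow, sz, Real.sq_sqrt hz.le]
  rw [sq3, Fin.sum_univ_three, Qz, ← h5]
  linarith

/-- The matrix at a definite place. -/
def Md (c : ℝ) : Matrix (Fin 3) (Fin 3) ℂ := diagonal ![1, 1, ((Real.sqrt (-c) : ℝ) : ℂ)]

lemma isFr_Md {c : ℝ} (hc : c < 0) : IsFr (hb c) (Md c) := by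
  refine ⟨fun _ => 1, fun _ => abs_one, ?_⟩
  have h1 : (diagonal (fun _ : Fin 3 => ((1 : ℝ) : ℂ))) = 1 := by
    rw [Complex.ofReal_one, diagonal_one]
  rw [h1, Matrix.mul_one, Md, diagonal_conjTranspose, diagonal_mul_diagonal, HM]
  congr 1
  funext i
  fin_cases i
  · simp [hb]
  · simp [hb]
  · have h2 : ((Real.sqrt (-c) : ℝ) : ℂ) * ((Real.sqrt (-c) : ℝ) : ℂ) = ((-c : ℝ) : ℂ) := by
      rw [← Complex.ofReal_mul, Real.mul_self_sqrt (by linarith)]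
    simp only [hb, Pi.star_apply, Matrix.cons_val, Fin.reduceFinMk, Complex.star_def,
      Complex.conj_ofReal]
    exact h2

end

end CMT.Cpt
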