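import Pool.Agent.Lib.CMT.D.Emb
import Pool.Agent.Lib.CMT.D.Gz
import Pool.Agent.Lib.CMT.D.God

/-!
PROJECT CMT, part D (cocompactness), module 4 (helper45): short vectors.

`Mt β t0 t z` is `Mz (t0 β) z` for `t = t0` and `diag (1, 1, √(-t β))` otherwise.
`short`: for every point `z` of the ball there are three integral vectors of `K^3` (columns of
`Vm D k c`), independent over `K`, with `∑ ‖Mt v‖² ≤ B` at all places, `B` independent of `z`.
-/

namespace CMT.Cpt

open NumberField Module Matrix ComplexConjugate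

noncomputable section

variable {F : Type*} [Field F]

open Classical in
/-- The matrix of the majorant at the place `t`. -/
def Mt (β : F) (t0 t : F →+* ℝ) (z : ℂ × ℂ) : Matrix (Fin 3) (Fin 3) ℂ :=
  if t = t0 then Mz (t β) z else Md (t β)

lemma isFr_Mt {β : F} {t0 : F →+* ℝ} (hβ : ∀ t : F →+* ℝ, t ≠ t0 → t β < 0) {z : ℂ × ℂ}
    (hz : 0 < Nb (t0 β) z) (t : F →+* ℝ) : IsFr (hb (t β)) (Mt β t0 t z) := by
  unfold Mt
  split_ifs with h
  · subst h; exact isFr_Mz hz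
  · exact isFr_Md (hβ t h)

variable [NumberField F]

open Classical in
/-- The linear map of the majorant. -/
def Gl (β : F) (t0 : F →+* ℝ) (z : ℂ × ℂ) : VR F →ₗ[ℝ] VR F :=
  (Matrix.toLpLin 2 2 (blockDiagonal (fun t => Mt β t0 t z))).restrictScalars ℝ

lemma Gl_apply (β : F) (t0 : F →+* ℝ) (z : ℂ × ℂ) (v : VR F) (i : Fin 3) (t : F →+* ℝ) :
    Gl β t0 z v (i, t) = (Mt β t0 t z *ᵥ (fun j => v (j, t))) i := by
  classical
  show (blockDiagonal (fun t => Mt β t0 t z) *ᵥ (WithLp.ofLp v)) (i, t) = _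
  rw [mulVec, dotProduct, Fintype.sum_prod_type, mulVec, dotProduct]
  refine Finset.sum_congr rfl fun j _ => ?_
  rw [Finset.sum_eq_single t]
  · rw [blockDiagonal_apply_eq]
  · intro t' _ ht'
    rw [blockDiagonal_apply_ne _ _ _ ht'.symm, zero_mul]
  · intro h; exact absurd (Finset.mem_univ t) h

lemma Gl_norm (β : F) (t0 : F →+* ℝ) (z : ℂ × ℂ) (v : VR F) :
    ‖Gl β t0 z v‖ ^ 2 = ∑ t, sq3 (Mt β t0 t z *ᵥ (fun j => v (j, t))) := by
  rw [EuclideanSpace.norm_sq_eq, Fintype.sum_prod_type_right]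
  refine Finset.sum_congr rfl fun t _ => ?_
  rw [sq3]
  exact Finset.sum_congr rfl fun i _ => by rw [Gl_apply]

lemma sq3_nonneg (v : Fin 3 → ℂ) : 0 ≤ sq3 v := Finset.sum_nonneg fun _ _ => sq_nonneg _

lemma sq3_le_Gl (β : F) (t0 : F →+* ℝ) (z : ℂ × ℂ) (v : VR F) (t : F →+* ℝ) :
    sq3 (Mt β t0 t z *ᵥ (fun j => v (j, t))) ≤ ‖Gl β t0 z v‖ ^ 2 := by
  rw [Gl_norm]
  exact Finset.single_le_sum (f := fun t => sq3 (Mt β t0 t z *ᵥ (fun j => v (j, t))))
    (fun _ _ => sq3_nonneg _) (Finset.mem_univ t)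

lemma prod_hb (b : ℝ) : ∏ i, hb b i = -b := by
  rw [Fin.prod_univ_three]; simp [hb]

lemma Gl_det {β : F} {t0 : F →+* ℝ} (hβ : ∀ t : F →+* ℝ, t ≠ t0 → t β < 0) {z : ℂ × ℂ}
    (hz : 0 < Nb (t0 β) z) : LinearMap.det (Gl β t0 z) = ∏ t : F →+* ℝ, |t β| := by
  classical
  rw [Gl, LinearMap.det_restrictScalars, Algebra.norm_complex_apply, LinearMap.det_toLpLin,
    det_blockDiagonal, Complex.normSq_eq_norm_sq, norm_prod, ← Finset.prod_pow]
  refine Finset.prod_congr rfl fun t _ => ?_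
  rw [(isFr_Mt hβ hz t).det, prod_hb, abs_neg]

variable [IsTotallyReal F] {D : F} (hD : ∀ t : F →+* ℝ, 0 < t D)

omit [NumberField F] [IsTotallyReal F] in
/-- The norm of `K/F` and the embeddings. -/
lemma map_norm (t : F →+* ℝ) (w : Kq D) : t (QuadraticAlgebra.norm w) = ‖emb hD t w‖ ^ 2 := by
  have h1 := congrArg (emb hD t) (QuadraticAlgebra.algebraMap_norm_eq_mul_star w)
  rw [emb_algebraMap, map_mul, emb_star, Complex.mul_conj, Complex.normSq_eq_norm_sq] at h1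
  exact_mod_cast h1

omit [NumberField F] [IsTotallyReal F] in
lemma isIntegral_norm {w : Kq D} (hw : IsIntegral ℤ w) :
    IsIntegral ℤ (QuadraticAlgebra.norm w) := by
  have h : IsIntegral ℤ (algebraMap F (Kq D) (QuadraticAlgebra.norm w)) := by
    rw [QuadraticAlgebra.algebraMap_norm_eq_mul_star]
    exact hw.mul (isIntegral_star hw)
  exact (isIntegral_algebraMap_iff QuadraticAlgebra.algebraMap_injective).1 h

include hD in
/-- The lower bound. -/
lemma lower {β : F} (hβi : IsIntegral ℤ β) {t0 : F →+* ℝ}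
    (hβ : ∀ t : F →+* ℝ, t ≠ t0 → t β < 0) (hT : ∃ t : F →+* ℝ, t ≠ t0) {z : ℂ × ℂ}
    (hz : 0 < Nb (t0 β) z) {x : Fin 3 → Kq D} (hx : ∀ i, IsIntegral ℤ (x i)) (h0 : x ≠ 0) :
    1 ≤ ‖Gl β t0 z (vec hD x)‖ ^ 2 := by
  -- the value of the form
  let q : F := QuadraticAlgebra.norm (x 0) + QuadraticAlgebra.norm (x 1)
    - β * QuadraticAlgebra.norm (x 2)
  have hq : ∀ t : F →+* ℝ, t q = hv (t β) (fun i => emb hD t (x i)) := by
    intro t
    simp only [q, map_sub, map_add, map_mul, map_norm hD, hv]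
  have hqi : IsIntegral ℤ q :=
    ((isIntegral_norm (hx 0)).add (isIntegral_norm (hx 1))).sub
      (hβi.mul (isIntegral_norm (hx 2)))
  have hq0 : q ≠ 0 := by
    intro h
    obtain ⟨t1, ht1⟩ := hT
    have h1 := hq t1
    rw [h, map_zero, hv] at h1
    have h2 := hβ t1 ht1
    have h3 : ∀ i, emb hD t1 (x i) = 0 := by
      have e0 : 0 ≤ ‖emb hD t1 (x 0)‖ ^ 2 := sq_nonneg _
      have e1 : 0 ≤ ‖emb hD t1 (x 1)‖ ^ 2 := sq_nonneg _
      have e2 : 0 ≤ ‖emb hD t1 (x 2)‖ ^ 2 := sq_nonneg _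
      have e3 : 0 ≤ -(t1 β) * ‖emb hD t1 (x 2)‖ ^ 2 := mul_nonneg (by linarith) e2
      have f0 : ‖emb hD t1 (x 0)‖ ^ 2 = 0 := by linarith
      have f1 : ‖emb hD t1 (x 1)‖ ^ 2 = 0 := by linarith
      have f2 : -(t1 β) * ‖emb hD t1 (x 2)‖ ^ 2 = 0 := by linarith
      have f2' : ‖emb hD t1 (x 2)‖ ^ 2 = 0 := by
        rcases mul_eq_zero.1 f2 with h | h
        · linarith
        · exact h
      intro i
      fin_cases i
      · exact norm_eq_zero.1 (pow_eq_zero_iff (two_ne_zero)|>.1 f0)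
      · exact norm_eq_zero.1 (pow_eq_zero_iff (two_ne_zero)|>.1 f1)
      · exact norm_eq_zero.1 (pow_eq_zero_iff (two_ne_zero)|>.1 f2')
    exact h0 (funext fun i => emb_eq_zero hD t1 (h3 i))
  obtain ⟨t, ht⟩ := exists_one_le hqi hq0
  refine ht.trans (le_trans ?_ (sq3_le_Gl β t0 z (vec hD x) t))
  have h1 := (isFr_Mt hβ hz t).form_le (fun i => emb hD t (x i)) (fun i => emb hD t (x i))
  have h2 : ∑ i, (hb (t β) i : ℂ) * emb hD t (x i) * conj (emb hD t (x i))
      = ((t q : ℝ) : ℂ) := by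
    rw [hq, ← sum_hb']
    push_cast
    refine Finset.sum_congr rfl fun i _ => ?_
    rw [mul_assoc, Complex.mul_conj, Complex.normSq_eq_norm_sq]
    push_cast
    ring
  rw [h2, Complex.norm_real, Real.norm_eq_abs] at h1
  have h3 : (fun j => vec hD x (j, t)) = fun i => emb hD t (x i) := by
    funext i; rw [vec_apply]
  rw [h3]
  linarith

/-- The matrix with columns `comb D k (c j)`. -/
def Vm (D : F) (k : ℕ) (c : Fin 3 → Ix F → ℤ) : Matrix (Fin 3) (Fin 3) (Kq D) :=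
  Matrix.of fun i j => comb D k (c j) i

/-- Short vectors. -/
theorem short {k : ℕ} (hk : 0 < k) (hkD : IsIntegral ℤ (⟨0, k⟩ : Kq D)) {β : F}
    (hβi : IsIntegral ℤ β) {t0 : F →+* ℝ} (hβ0 : t0 β ≠ 0)
    (hβ : ∀ t : F →+* ℝ, t ≠ t0 → t β < 0) (hT : ∃ t : F →+* ℝ, t ≠ t0) :
    ∃ B : ℝ, 0 < B ∧ ∀ z : ℂ × ℂ, 0 < Nb (t0 β) z → ∃ c : Fin 3 → Ix F → ℤ,
      emb hD t0 (Vm D k c).det ≠ 0 ∧
      ∀ (j : Fin 3) (t : F →+* ℝ),
        sq3 (Mt β t0 t z *ᵥ (fun i => emb hD t (Vm D k c i j))) ≤ B := by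
  classical
  set n := finrank ℝ (VR F) with hn
  have hnpos : 0 < n := by rw [hn, finrank_VR]; exact card_Ix_pos F
  let Δ : ℝ := ∏ t : F →+* ℝ, |t β|
  have hΔ : 0 < Δ := by
    refine Finset.prod_pos fun t _ => abs_pos.2 ?_
    by_cases h : t = t0
    · rw [h]; exact hβ0
    · exact (hβ t h).ne
  -- the scaling constant
  let s : ℝ := Δ ^ (-(1 / (n : ℝ)))
  have hs : 0 < s := Real.rpow_pos_of_pos hΔ _
  have hsn : s ^ n * Δ = 1 := by
    have h1 : s ^ n = Δ ^ (-1 : ℝ) := by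
      rw [← Real.rpow_natCast, ← Real.rpow_mul hΔ.le]
      congr 1
      field_simp
    rw [h1, Real.rpow_neg_one, inv_mul_cancel₀ hΔ.ne']
  obtain ⟨R, hR, H⟩ := CMT.God.short_indep (bE hD hk) hs n le_rfl
  refine ⟨(R / s) ^ 2, by positivity, fun z hz => ?_⟩
  have hdet : LinearMap.det (Gl β t0 z) = Δ := Gl_det hβ hz
  let f : VR F →ₗ[ℝ] VR F := s • Gl β t0 z
  have hdetf : LinearMap.det f = 1 := by
    rw [LinearMap.det_smul, hdet, ← hn, hsn]
  let g : VR F ≃ₗ[ℝ] VR F := f.equivOfDetNeZero (by rw [hdetf]; exact one_ne_zero)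
  have hg : (g : VR F →ₗ[ℝ] VR F) = f := by ext1 x; rfl
  have hgv : ∀ v, g v = s • Gl β t0 z v := fun v => rfl
  obtain ⟨v, hv, hv'⟩ := H g (by rw [hg, hdetf, abs_one]) (by
    intro v hv h0
    obtain ⟨c, hc⟩ := mem_span hD hk hv
    rw [hgv, norm_smul, Real.norm_of_nonneg hs.le, hc]
    have h1 : comb D k c ≠ 0 := by
      intro h; apply h0; rw [hc, h, map_zero]
    have h2 := lower hD hβi hβ hT hz (isIntegral_comb hkD c) h1
    have h3 : 1 ≤ ‖Gl β t0 z (vec hD (comb D k c))‖ := by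
      nlinarith [norm_nonneg (Gl β t0 z (vec hD (comb D k c)))]
    nlinarith)
  -- span over `ℝ`
  have hvi : LinearIndependent ℝ v := (LinearMap.linearIndependent_iff (g : VR F →ₗ[ℝ] VR F)
    (LinearEquiv.ker g)).1 hv
  have hspan : Submodule.span ℝ (Set.range v) = ⊤ := by
    have : Nonempty (Fin n) := ⟨⟨0, hnpos⟩⟩
    exact hvi.span_eq_top_of_card_eq_finrank (by rw [Fintype.card_fin])
  -- the component at `t0`
  let p : VR F →ₗ[ℝ] (Fin 3 → ℂ) :=
    { toFun := fun v i => v (i, t0), map_add' := fun _ _ => rfl, map_smul' := fun _ _ => rfl }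
  have hp : Submodule.span ℂ (Set.range (fun i => p (v i))) = ⊤ := by
    rw [eq_top_iff]
    intro y _
    let y' : VR F := WithLp.toLp 2 (fun q => y q.1)
    have hy' : p y' = y := by funext i; rfl
    have h1 : y' ∈ Submodule.span ℝ (Set.range v) := by rw [hspan]; trivial
    have h2 : p y' ∈ Submodule.map p (Submodule.span ℝ (Set.range v)) :=
      Submodule.mem_map_of_mem h1
    rw [hy', Submodule.map_span, ← Set.range_comp] at h2
    exact Submodule.span_le_restrictScalars ℝ ℂ _ h2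
  obtain ⟨κ, a, ha, hsp, hli⟩ := exists_linearIndependent' ℂ (fun i => p (v i))
  rw [hp] at hsp
  let bκ : Basis κ ℂ (Fin 3 → ℂ) := Basis.mk hli hsp.ge
  have : Finite κ := Finite.of_injective a ha
  have : Fintype κ := Fintype.ofFinite κ
  have hcard : Fintype.card κ = Fintype.card (Fin 3) := by
    have := Module.finrank_eq_card_basis bκ
    rw [Module.finrank_fin_fun] at this
    rw [Fintype.card_fin]; exact this.symm
  let e : Fin 3 ≃ κ := (Fintype.equivOfCardEq hcard).symm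
  choose c hc using fun j : Fin 3 => mem_span hD hk (hv' (a (e j))).1
  refine ⟨c, ?_, ?_⟩
  · rw [RingHom.map_det]
    have h1 : LinearIndependent ℂ (fun j : Fin 3 => p (v (a (e j)))) :=
      hli.comp e e.injective
    have h2 : (fun j : Fin 3 => p (v (a (e j))))
        = ((emb hD t0).mapMatrix (Vm D k c)).col := by
      funext j i
      show v (a (e j)) (i, t0) = emb hD t0 (comb D k (c j) i)
      rw [hc j, vec_apply]
    rw [h2, linearIndependent_cols_iff_isUnit, isUnit_iff_isUnit_det, isUnit_iff_ne_zero] at h1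
    exact h1
  · intro j t
    have h1 := sq3_le_Gl β t0 z (v (a (e j))) t
    have h2 : (fun i => emb hD t (Vm D k c i j)) = fun i => v (a (e j)) (i, t) := by
      funext i
      rw [hc j, vec_apply]; rfl
    rw [h2]
    refine h1.trans ?_
    have h3 := (hv' (a (e j))).2
    rw [hgv, norm_smul, Real.norm_of_nonneg hs.le] at h3
    have h4 : ‖Gl β t0 z (v (a (e j)))‖ ≤ R / s := by
      rw [le_div_iff₀ hs, mul_comm]; exact h3
    exact pow_le_pow_left₀ (norm_nonneg _) h4 2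

end

end CMT.Cpt
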