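import Pool.Agent.Lib.CMT.Iface
import Pool.Agent.Lib.CMT.B.Br
import Pool.Agent.Lib.CMT.D.Short

/-!
PROJECT CMT, part D (cocompactness), module 5 (helper45): `S_Cpt`.

For `z` in the ball take the short `V ∈ M₃(O)` of `Short.lean`; the pair `(Vᴴ H V, V mod q)` takes
finitely many values; if `V`, `W` have the same value then `γ = W V⁻¹` is in `Γ(3)` and `γ z` is in a
compact set which depends only on `W`.
-/

namespace CMT.Cpt

open NumberField Module Matrix ComplexConjugate CMT.B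

noncomputable section

lemma exists_reps {α β : Type*} (Φ : α → β) (S : Set α) (h : (Φ '' S).Finite) :
    ∃ S0 : Set α, S0 ⊆ S ∧ S0.Finite ∧ ∀ a ∈ S, ∃ a0 ∈ S0, Φ a0 = Φ a := by
  choose f hf using fun b : (Φ '' S) => b.2
  have := h.to_subtype
  refine ⟨Set.range f, ?_, Set.finite_range f, ?_⟩
  · rintro _ ⟨b, rfl⟩; exact (hf b).1
  · intro a ha; exact ⟨f ⟨Φ a, a, ha, rfl⟩, ⟨_, rfl⟩, (hf _).2⟩

/-- The compact set of a matrix. -/
lemma exists_delta {b : ℝ} (W : Matrix (Fin 3) (Fin 3) ℂ) (hW : W.det ≠ 0) (B : ℝ) :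
    ∃ δ : ℝ, 0 < δ ∧ ∀ z : ℂ × ℂ, 0 < Nb b z → (∀ j, sq3 (Mz b z *ᵥ W.col j) ≤ B) → δ ≤ Nb b z := by
  by_cases hb0 : 0 < b
  swap
  · exact ⟨1, one_pos, fun z hz _ => absurd (Nb_pos_b hz) hb0⟩
  let u : Fin 3 → ℂ := W⁻¹ *ᵥ (Pi.single 2 1)
  have hu : W *ᵥ u = Pi.single 2 1 := by
    rw [mulVec_mulVec, mul_nonsing_inv _ (isUnit_iff_ne_zero.2 hW), one_mulVec]
  let A : ℝ := (∑ j, ‖u j‖) * Real.sqrt B
  have hA : 0 ≤ A := mul_nonneg (Finset.sum_nonneg fun _ _ => norm_nonneg _) (Real.sqrt_nonneg _)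
  refine ⟨(b / (A + 1)) ^ 2, by positivity, fun z hz hB => ?_⟩
  have hs : 0 < sz b z := Real.sqrt_pos.2 hz
  have hss : sz b z ^ 2 = Nb b z := Real.sq_sqrt hz.le
  have h1 : (Mz b z *ᵥ (Pi.single 2 1)) 2 = -((b : ℂ) / (sz b z : ℝ)) := by
    rw [Mz_mulVec_two, zv]
    simp [neg_div]
  have h2 : (Mz b z *ᵥ (Pi.single 2 1)) 2 = ∑ j, u j * (Mz b z *ᵥ W.col j) 2 := by
    have e1 : W *ᵥ u = ∑ j, u j • W.col j := by
      funext i
      rw [mulVec, dotProduct, Finset.sum_apply]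
      exact Finset.sum_congr rfl fun j _ => mul_comm _ _
    rw [← hu, e1, mulVec_sum, Finset.sum_apply]
    refine Finset.sum_congr rfl fun j _ => ?_
    rw [mulVec_smul, Pi.smul_apply, smul_eq_mul]
  have h3 : ∀ j, ‖(Mz b z *ᵥ W.col j) 2‖ ≤ Real.sqrt B := by
    intro j
    apply Real.le_sqrt_of_sq_le
    refine le_trans ?_ (hB j)
    exact Finset.single_le_sum (f := fun i => ‖(Mz b z *ᵥ W.col j) i‖ ^ 2)
      (fun _ _ => sq_nonneg _) (Finset.mem_univ 2)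
  have h4 : b / sz b z ≤ A := by
    have e1 : ‖(Mz b z *ᵥ (Pi.single 2 1)) 2‖ = b / sz b z := by
      rw [h1, norm_neg, norm_div, Complex.norm_real, Complex.norm_real,
        Real.norm_of_nonneg hb0.le, Real.norm_of_nonneg hs.le]
    rw [← e1, h2]
    refine (norm_sum_le _ _).trans ?_
    show _ ≤ (∑ j, ‖u j‖) * Real.sqrt B
    rw [Finset.sum_mul]
    refine Finset.sum_le_sum fun j _ => ?_
    rw [norm_mul]
    exact mul_le_mul_of_nonneg_left (h3 j) (norm_nonneg _)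
  have h5 : b / (A + 1) ≤ sz b z := by
    rw [div_le_iff₀ (by positivity)]
    rw [div_le_iff₀ hs] at h4
    nlinarith
  rw [← hss]
  exact pow_le_pow_left₀ (by positivity) h5 2

lemma isCompact_Nb (b δ : ℝ) : IsCompact {z : ℂ × ℂ | δ ≤ Nb b z} := by
  apply Metric.isCompact_of_isClosed_isBounded
  · apply isClosed_le continuous_const
    unfold Nb
    fun_prop
  · refine (Metric.isBounded_closedBall (x := (0 : ℂ × ℂ)) (r := Real.sqrt (b - δ))).subset ?_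
    intro z hz
    have hz' : δ ≤ b - ‖z.1‖ ^ 2 - ‖z.2‖ ^ 2 := hz
    rw [mem_closedBall_zero_iff, Prod.norm_def, max_le_iff]
    constructor
    · apply Real.le_sqrt_of_sq_le; nlinarith [sq_nonneg ‖z.2‖]
    · apply Real.le_sqrt_of_sq_le; nlinarith [sq_nonneg ‖z.1‖]

variable {F : Type} [Field F] [NumberField F]

lemma ev_eq (D : Dat F) (t : F →+* ℝ) (w : KD D) : ev D t w = emb D.del_pos t w := by
  rw [emb_apply]
  show ((t w.re : ℝ) : ℂ) + Complex.I * ((Real.sqrt (t D.del) : ℝ) : ℂ) * ((t w.im : ℝ) : ℂ) = _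
  ring

lemma cj_eq (D : Dat F) (w : KD D) : cj D w = star w := by
  apply QuadraticAlgebra.ext
  · simp [cj]
  · simp [cj]

lemma isIso_iff (D : Dat F) (g : SG D) : IsIso D g ↔ g.1ᴴ * Hm D * g.1 = Hm D := by
  have h : (g.1.map (cj D)).transpose = g.1ᴴ := by
    ext1 i j
    rw [transpose_apply, map_apply, conjTranspose_apply, cj_eq]
  rw [IsIso, h]

lemma isIntegral_rint (D : Dat F) {w : KD D} (h : RInt D w) : IsIntegral ℤ w := by
  have h1 : IsIntegral ℤ (⟨0, 1⟩ : KD D) := by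
    have h2 : IsIntegral ℤ ((⟨0, 1⟩ : KD D) ^ 2) := by
      have h3 : (⟨0, 1⟩ : KD D) ^ 2 = ⟨-D.del, 0⟩ := by
        rw [pow_two, QuadraticAlgebra.mk_mul_mk]
        congr 1 <;> ring
      rw [h3]
      exact isIntegral_mk_zero D.del_int.neg
    exact h2.of_pow (by norm_num)
  have h2 : w = ⟨w.re, 0⟩ + ⟨0, 1⟩ * ⟨w.im, 0⟩ := by
    apply QuadraticAlgebra.ext <;> simp
  rw [h2]
  exact (isIntegral_mk_zero h.1).add (h1.mul (isIntegral_mk_zero h.2))

/-- `det (1 + 3 Y) = 1 + 3 e` with `e` integral. -/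
lemma det_one_add {R : Type*} [CommRing R] (Y : Matrix (Fin 3) (Fin 3) R)
    (hY : ∀ i j, IsIntegral ℤ (Y i j)) :
    ∃ e : R, IsIntegral ℤ e ∧ (1 + (3 : R) • Y).det = 1 + 3 * e := by
  have h3 : IsIntegral ℤ (3 : R) := by
    have := isIntegral_natCast (R := ℤ) (B := R) (a := 3)
    simpa using this
  refine ⟨(Y 0 0 + Y 1 1 + Y 2 2) +
    3 * ((Y 0 0 * Y 1 1 - Y 0 1 * Y 1 0) + (Y 0 0 * Y 2 2 - Y 0 2 * Y 2 0) +
      (Y 1 1 * Y 2 2 - Y 1 2 * Y 2 1)) +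
    3 * 3 * (Y 0 0 * Y 1 1 * Y 2 2 - Y 0 0 * Y 1 2 * Y 2 1 - Y 0 1 * Y 1 0 * Y 2 2
      + Y 0 1 * Y 1 2 * Y 2 0 + Y 0 2 * Y 1 0 * Y 2 1 - Y 0 2 * Y 1 1 * Y 2 0), ?_, ?_⟩
  · repeat' first
      | exact hY _ _
      | exact h3
      | apply IsIntegral.add
      | apply IsIntegral.sub
      | apply IsIntegral.mul
  · rw [det_fin_three]
    simp only [Matrix.add_apply, Matrix.smul_apply, smul_eq_mul, one_apply_eq, one_apply_ne, ne_eq,
      Fin.reduceEq, not_false_eq_true]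
    ring

lemma gram_mul {R : Type*} [CommRing R] [StarRing R] (A V H : Matrix (Fin 3) (Fin 3) R) :
    (A * V)ᴴ * H * (A * V) = Vᴴ * (Aᴴ * H * A) * V := by
  rw [conjTranspose_mul]; simp only [Matrix.mul_assoc]

lemma gram_cancel {R : Type*} [CommRing R] [StarRing R] {V X H : Matrix (Fin 3) (Fin 3) R}
    (hV : IsUnit V.det) (h : Vᴴ * X * V = Vᴴ * H * V) : X = H := by
  have key : ∀ X : Matrix (Fin 3) (Fin 3) R, (V⁻¹)ᴴ * (Vᴴ * X * V) * V⁻¹ = X := by
    intro X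
    calc (V⁻¹)ᴴ * (Vᴴ * X * V) * V⁻¹ = ((V⁻¹)ᴴ * Vᴴ) * X * (V * V⁻¹) := by
          simp only [Matrix.mul_assoc]
      _ = X := by
          rw [← conjTranspose_mul, mul_nonsing_inv _ hV, conjTranspose_one, Matrix.one_mul,
            Matrix.mul_one]
  rw [← key X, h, key H]

lemma int_mul {R : Type*} [CommRing R] {X Y : Matrix (Fin 3) (Fin 3) R}
    (hX : ∀ i j, IsIntegral ℤ (X i j)) (hY : ∀ i j, IsIntegral ℤ (Y i j)) (i j : Fin 3) :
    IsIntegral ℤ ((X * Y) i j) := by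
  rw [Matrix.mul_apply]
  exact IsIntegral.sum _ fun l _ => (hX i l).mul (hY l j)

variable (D : Dat F)

lemma int_Hm (i j : Fin 3) : IsIntegral ℤ (Hm D i j) := by
  by_cases h : i = j
  · subst h
    rw [Hm, diagonal_apply_eq]
    fin_cases i
    · exact isIntegral_one
    · exact isIntegral_one
    · exact (isIntegral_mk_zero D.bet_int).neg
  · rw [Hm, diagonal_apply_ne _ h]; exact isIntegral_zero

lemma int_star {X : Matrix (Fin 3) (Fin 3) (KD D)} (hX : ∀ i j, IsIntegral ℤ (X i j)) (i j : Fin 3) :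
    IsIntegral ℤ (Xᴴ i j) := by
  rw [conjTranspose_apply]; exact isIntegral_star (hX j i)

/-- The entries of `Vᴴ H V`. -/
lemma emb_gram (V : Matrix (Fin 3) (Fin 3) (KD D)) (t : F →+* ℝ) (i j : Fin 3) :
    emb D.del_pos t ((Vᴴ * Hm D * V) i j) =
      ∑ l, (hb (t D.bet) l : ℂ) * emb D.del_pos t (V l j) * conj (emb D.del_pos t (V l i)) := by
  rw [Matrix.mul_apply, map_sum]
  refine Finset.sum_congr rfl fun l _ => ?_
  rw [Hm, mul_diagonal, conjTranspose_apply, map_mul, map_mul, emb_star]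
  have h : emb D.del_pos t ((![1, 1, -(algebraMap F (KD D) D.bet)] : Fin 3 → KD D) l)
      = (hb (t D.bet) l : ℂ) := by
    fin_cases l
    · simp [hb]
    · simp [hb]
    · show emb D.del_pos t (-(algebraMap F (KD D) D.bet)) = ((-(t D.bet) : ℝ) : ℂ)
      rw [map_neg, emb_algebraMap]; simp
  rw [h]; ring

lemma emb_det_Hm (t : F →+* ℝ) : emb D.del_pos t (Hm D).det = ((-(t D.bet) : ℝ) : ℂ) := by
  rw [Hm, det_diagonal, Fin.prod_univ_three]
  show emb D.del_pos t (1 * 1 * -(algebraMap F (KD D) D.bet)) = _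
  rw [one_mul, one_mul, map_neg, emb_algebraMap]
  simp

theorem cpt3 [IsTotallyReal F] (hT : ∃ t : F →+* ℝ, t ≠ D.t0) :
    ∃ C : Set (ℂ × ℂ), IsCompact C ∧ C ⊆ Ball D ∧ ∀ z ∈ Ball D, ∃ g ∈ Gam D 3, CMT.act D g z ∈ C := by
  classical
  set hD := D.del_pos with hDdef
  have hβ0 : D.t0 D.bet ≠ 0 := D.bet_pos.ne'
  obtain ⟨k, hk, hkD⟩ := exists_k D.del
  obtain ⟨M, hM, HM⟩ := exists_M hD
  obtain ⟨B, hB, HB⟩ := short hD hk hkD D.bet_int hβ0 D.bet_neg hT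
  -- the finite set of Gram matrices
  let S : Set (KD D) := {w | IsIntegral ℤ w ∧ ∀ t : F →+* ℝ, ‖emb hD t w‖ ≤ B}
  have hS : S.Finite := finite_bdd_K hD B
  let GS : Set (Matrix (Fin 3) (Fin 3) (KD D)) := {G | ∀ i j, G i j ∈ S}
  have hGS : GS.Finite := by
    have h1 : (Set.pi Set.univ fun _ : Fin 3 => Set.pi Set.univ fun _ : Fin 3 => S).Finite :=
      Set.Finite.pi fun _ => Set.Finite.pi fun _ => hS
    refine h1.subset ?_
    intro G hG i _ j _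
    exact hG i j
  obtain ⟨N, hN, HN⟩ := exists_mul_integral_K (D := D.del)
    (hGS.toFinset.biUnion fun G => Finset.univ.image fun p : Fin 3 × Fin 3 => G⁻¹ p.1 p.2)
  have HN' : ∀ G ∈ GS, ∀ i j, IsIntegral ℤ ((N : KD D) * G⁻¹ i j) := by
    intro G hG i j
    apply HN
    rw [Finset.mem_biUnion]
    exact ⟨G, by simpa using hG, Finset.mem_image.2 ⟨(i, j), Finset.mem_univ _, rfl⟩⟩
  let q : ℕ := 3 * M * N
  have hq : 0 < q := by positivity
  have : NeZero q := ⟨hq.ne'⟩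
  -- the data
  let P : (ℂ × ℂ) → (Fin 3 → Ix F → ℤ) → Prop := fun z c =>
    emb hD D.t0 (Vm D.del k c).det ≠ 0 ∧ ∀ (j : Fin 3) (t : F →+* ℝ),
      sq3 (Mt D.bet D.t0 t z *ᵥ (fun i => emb hD t (Vm D.del k c i j))) ≤ B
  let VV : Set (Fin 3 → Ix F → ℤ) := {c | ∃ z : ℂ × ℂ, 0 < Nb (D.t0 D.bet) z ∧ P z c}
  let gram : (Fin 3 → Ix F → ℤ) → Matrix (Fin 3) (Fin 3) (KD D) := fun c =>
    (Vm D.del k c)ᴴ * Hm D * Vm D.del k c
  have hint : ∀ c i j, IsIntegral ℤ (Vm D.del k c i j) := fun c i j => isIntegral_comb hkD _ _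
  have hgram : ∀ c ∈ VV, gram c ∈ GS := by
    rintro c ⟨z, hz, hc1, hc2⟩ i j
    refine ⟨int_mul (int_mul (int_star D (hint c)) (int_Hm D)) (hint c) i j, fun t => ?_⟩
    rw [emb_gram]
    refine ((isFr_Mt D.bet_neg hz t).form_le _ _).trans ?_
    have e1 := hc2 j t
    have e2 := hc2 i t
    linarith
  let Φ : (Fin 3 → Ix F → ℤ) → Matrix (Fin 3) (Fin 3) (KD D) × (Fin 3 → Ix F → ZMod q) :=
    fun c => (gram c, fun j x => (c j x : ZMod q))
  have hfin : (Φ '' VV).Finite := by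
    refine (hGS.prod (Set.finite_univ (α := Fin 3 → Ix F → ZMod q))).subset ?_
    rintro _ ⟨c, hc, rfl⟩
    exact ⟨hgram c hc, Set.mem_univ _⟩
  obtain ⟨S0, hS0, hS0f, hrep⟩ := exists_reps Φ VV hfin
  -- the compact set
  have hdel : ∀ c : Fin 3 → Ix F → ℤ, ∃ δ : ℝ, 0 < δ ∧ (c ∈ VV → ∀ z : ℂ × ℂ,
      0 < Nb (D.t0 D.bet) z →
      (∀ j, sq3 (Mz (D.t0 D.bet) z *ᵥ ((emb hD D.t0).mapMatrix (Vm D.del k c)).col j) ≤ B) →
      δ ≤ Nb (D.t0 D.bet) z) := by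
    intro c
    by_cases hc : c ∈ VV
    · obtain ⟨z, hz, hc1, hc2⟩ := hc
      obtain ⟨δ, hδ, H⟩ := exists_delta (b := D.t0 D.bet)
        ((emb hD D.t0).mapMatrix (Vm D.del k c)) (by rw [← RingHom.map_det]; exact hc1) B
      exact ⟨δ, hδ, fun _ => H⟩
    · exact ⟨1, one_pos, fun h => absurd h hc⟩
  choose δ hδ Hδ using hdel
  refine ⟨⋃ c ∈ S0, {z | δ c ≤ Nb (D.t0 D.bet) z}, hS0f.isCompact_biUnion fun c _ =>
    isCompact_Nb _ _, ?_, ?_⟩
  · intro z hz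
    simp only [Set.mem_iUnion] at hz
    obtain ⟨c, -, hz⟩ := hz
    have h1 : δ c ≤ D.t0 D.bet - ‖z.1‖ ^ 2 - ‖z.2‖ ^ 2 := hz
    have h2 := hδ c
    show ‖z.1‖ ^ 2 + ‖z.2‖ ^ 2 < D.t0 D.bet
    linarith
  intro z hz
  have hzN : 0 < Nb (D.t0 D.bet) z := by
    have hz' : ‖z.1‖ ^ 2 + ‖z.2‖ ^ 2 < D.t0 D.bet := hz
    unfold Nb
    linarith
  obtain ⟨c, hc1, hc2⟩ := HB z hzN
  have hcV : c ∈ VV := ⟨z, hzN, hc1, hc2⟩
  obtain ⟨c0, hc0, hΦ⟩ := hrep c hcV
  have hc0V := hS0 hc0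
  obtain ⟨z0, hz0, hc01, hc02⟩ := hc0V
  set V := Vm D.del k c with hV
  set W := Vm D.del k c0 with hW
  have hgr : gram c0 = gram c := congrArg Prod.fst hΦ
  have hmod : ∀ j x, (c0 j x : ZMod q) = (c j x : ZMod q) := fun j x =>
    congrFun (congrFun (congrArg Prod.snd hΦ) j) x
  -- `W = V + q U`
  have hdvd : ∀ j x, ∃ d : ℤ, c0 j x - c j x = (q : ℤ) * d := by
    intro j x
    have h1 := (ZMod.intCast_eq_intCast_iff_dvd_sub _ _ _).1 (hmod j x)
    obtain ⟨d, hd⟩ := h1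
    exact ⟨-d, by linarith⟩
  choose d hd using hdvd
  have hWV : W - V = (q : KD D) • Vm D.del k d := by
    ext1 i j
    have h1 := congrFun (comb_sub (D := D.del) (k := k) (c0 j) (c j) (d j) q (hd j)) i
    rw [Matrix.sub_apply, Matrix.smul_apply, smul_eq_mul]
    show comb D.del k (c0 j) i - comb D.del k (c j) i = (q : KD D) * comb D.del k (d j) i
    rw [← Pi.sub_apply, h1, Pi.smul_apply, zsmul_eq_mul, Int.cast_natCast]
  -- units
  have hVu : IsUnit V.det := isUnit_of_emb_ne_zero hD D.t0 hc1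
  set G := gram c with hG
  have hGV : G = Vᴴ * Hm D * V := rfl
  have hGW : G = Wᴴ * Hm D * W := hgr.symm
  have hGu : IsUnit G.det := by
    apply isUnit_of_emb_ne_zero hD D.t0
    rw [hGV, det_mul, det_mul, det_conjTranspose, map_mul, map_mul, emb_star, emb_det_Hm]
    refine mul_ne_zero (mul_ne_zero ?_ ?_) hc1
    · exact (map_ne_zero _).2 hc1
    · rw [Complex.ofReal_ne_zero]; exact neg_ne_zero.2 hβ0
  have hVinv : V⁻¹ = G⁻¹ * (Vᴴ * Hm D) := by
    have h1 : G⁻¹ * (Vᴴ * Hm D) * V = 1 := by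
      rw [Matrix.mul_assoc, ← hGV, nonsing_inv_mul _ hGu]
    calc V⁻¹ = (G⁻¹ * (Vᴴ * Hm D) * V) * V⁻¹ := by rw [h1, Matrix.one_mul]
      _ = G⁻¹ * (Vᴴ * Hm D) := by rw [Matrix.mul_assoc, mul_nonsing_inv _ hVu, Matrix.mul_one]
  let γ : Matrix (Fin 3) (Fin 3) (KD D) := W * V⁻¹
  have hγV : γ * V = W := by
    show W * V⁻¹ * V = W
    rw [Matrix.mul_assoc, nonsing_inv_mul _ hVu, Matrix.mul_one]
  have hγiso : γᴴ * Hm D * γ = Hm D := by
    apply gram_cancel hVu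
    rw [← gram_mul, hγV, ← hGW, hGV]
  -- `γ = 1 + 3 X`
  let Y : Matrix (Fin 3) (Fin 3) (KD D) :=
    Vm D.del k d * ((N : KD D) • G⁻¹) * (Vᴴ * Hm D)
  have hGGS : G ∈ GS := hgram c hcV
  have hY : ∀ i j, IsIntegral ℤ (Y i j) :=
    int_mul (int_mul (hint d) (fun i j => by
      rw [Matrix.smul_apply, smul_eq_mul]; exact HN' G hGGS i j))
      (int_mul (int_star D (hint c)) (int_Hm D))
  have hγ1 : γ = 1 + (3 : KD D) • ((M : KD D) • Y) := by
    have h1 : γ - 1 = (W - V) * V⁻¹ := by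
      rw [Matrix.sub_mul, mul_nonsing_inv _ hVu]
    have h2 : (W - V) * V⁻¹ = (3 : KD D) • ((M : KD D) • Y) := by
      rw [hWV, hVinv]
      show _ = (3 : KD D) • ((M : KD D) • (Vm D.del k d * ((N : KD D) • G⁻¹) * (Vᴴ * Hm D)))
      simp only [Matrix.smul_mul, Matrix.mul_smul, smul_smul, Matrix.mul_assoc]
      congr 1
      simp only [q]
      push_cast
      ring
    rw [← h2, ← h1]; abel
  have hMY : ∀ i j, RInt D (((M : KD D) • Y) i j) := by
    intro i j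
    rw [Matrix.smul_apply, smul_eq_mul]
    have h1 := HM _ (hY i j)
    have h2 : (((M : KD D)) * Y i j).re = (M : F) * (Y i j).re := by simp
    have h3 : (((M : KD D)) * Y i j).im = (M : F) * (Y i j).im := by simp
    exact ⟨by rw [h2]; exact h1.1, by rw [h3]; exact h1.2⟩
  -- determinant
  obtain ⟨e, he, hdet⟩ := det_one_add ((M : KD D) • Y) (fun i j => isIntegral_rint D (hMY i j))
  rw [← hγ1] at hdet
  have hnorm : ∀ t : F →+* ℝ, ‖emb hD t γ.det‖ = 1 := by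
    intro t
    have h1 := congrArg (fun A => emb hD t (Matrix.det A)) hγiso
    simp only [det_mul, det_conjTranspose, map_mul, emb_star, emb_det_Hm] at h1
    have h2 : ((-(t D.bet) : ℝ) : ℂ) ≠ 0 := by
      rw [Complex.ofReal_ne_zero, neg_ne_zero]
      by_cases h : t = D.t0
      · rw [h]; exact hβ0
      · exact (D.bet_neg t h).ne
    have h3 : (conj (emb hD t γ.det)) * emb hD t γ.det = 1 := by
      apply mul_left_cancel₀ h2
      rw [mul_one]
      calc ((-(t D.bet) : ℝ) : ℂ) * ((conj (emb hD t γ.det)) * emb hD t γ.det)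
          = (conj (emb hD t γ.det)) * ((-(t D.bet) : ℝ) : ℂ) * emb hD t γ.det := by ring
        _ = _ := h1
    have h4 := congrArg norm h3
    rw [norm_mul, RCLike.norm_conj, norm_one] at h4
    nlinarith [norm_nonneg (emb hD t γ.det)]
  have he1 : ∀ t : F →+* ℝ, ‖emb hD t e‖ < 1 := by
    intro t
    have h1 : (3 : ℂ) * emb hD t e = emb hD t γ.det - 1 := by
      rw [hdet, map_add, map_mul, map_one, map_ofNat]; ring
    have h2 : ‖(3 : ℂ) * emb hD t e‖ ≤ 2 := by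
      rw [h1]
      refine (norm_sub_le _ _).trans ?_
      rw [hnorm, norm_one]; norm_num
    rw [norm_mul] at h2
    have h3 : ‖(3 : ℂ)‖ = 3 := by simp
    rw [h3] at h2
    linarith
  have he0 : e = 0 := by
    have h1 : QuadraticAlgebra.norm e = 0 := by
      by_contra h
      obtain ⟨t, ht⟩ := exists_one_le (isIntegral_norm he) h
      rw [map_norm hD] at ht
      have h2 := he1 t
      rw [abs_of_nonneg (sq_nonneg _)] at ht
      nlinarith [norm_nonneg (emb hD t e)]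
    have h2 := map_norm hD D.t0 e
    rw [h1, map_zero] at h2
    exact emb_eq_zero hD D.t0 (norm_eq_zero.1 (pow_eq_zero_iff two_ne_zero |>.1 h2.symm))
  have hdet1 : γ.det = 1 := by rw [hdet, he0, mul_zero, add_zero]
  let g : SG D := ⟨γ, hdet1⟩
  have hgiso : IsIso D g := (isIso_iff D g).2 hγiso
  have hgmem : g ∈ Gam D 3 := by
    refine ⟨hgiso, (M : KD D) • Y, hMY, ?_⟩
    show γ = 1 + ((3 : ℕ) : KD D) • ((M : KD D) • Y)
    rw [hγ1]; norm_num
  refine ⟨g, hgmem, ?_⟩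
  simp only [Set.mem_iUnion]
  refine ⟨c0, hc0, ?_⟩
  have hz'B := act_mem_Ball D hgiso hz
  have hz'N : 0 < Nb (D.t0 D.bet) (CMT.act D g z) := by
    have hz' : ‖(CMT.act D g z).1‖ ^ 2 + ‖(CMT.act D g z).2‖ ^ 2 < D.t0 D.bet := hz'B
    unfold Nb
    linarith
  refine Hδ c0 (hS0 hc0) _ hz'N fun j => ?_
  have hMt : Mt D.bet D.t0 D.t0 z = Mz (D.t0 D.bet) z := if_pos rfl
  have h1 := hc2 j D.t0
  rw [hMt, sq3_Mz hzN] at h1
  rw [sq3_Mz hz'N]
  have h2 : ((emb hD D.t0).mapMatrix W).col j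
      = mt D D.t0 g *ᵥ (fun i => emb hD D.t0 (V i j)) := by
    have e1 : mt D D.t0 g = (emb hD D.t0).mapMatrix γ := by
      ext1 a b
      exact ev_eq D D.t0 (γ a b)
    have e2 : (emb hD D.t0).mapMatrix W
        = (emb hD D.t0).mapMatrix γ * (emb hD D.t0).mapMatrix V := by
      rw [← map_mul, hγV]
    rw [e1, e2]
    funext i
    rfl
  have h3 : IsU (CMT.Cpt.hb (D.t0 D.bet)) (mt D D.t0 g) := mt_isU D D.t0 hgiso
  rw [h2, act_eq, Qz_act h3 hzN]
  exact h1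

lemma act_continuousOn {g : SG D} (hg : IsIso D g) : ContinuousOn (CMT.act D g) (Ball D) :=
  fun _ hz => (hasFDerivAt_act_Ball D hg hz).continuousAt.continuousWithinAt

theorem cpt : S_Cpt := by
  intro F _ _ _ hF D G hG hidx
  have hT : ∃ t : F →+* ℝ, t ≠ D.t0 := by
    rw [← card_T F] at hF
    have : Nontrivial (F →+* ℝ) := (@Fintype.one_lt_card_iff_nontrivial (F →+* ℝ)
      (Embeddings.instFintypeRingHom F ℝ)).1 hF
    exact exists_ne D.t0
  obtain ⟨C, hC, hCB, H⟩ := cpt3 D hT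
  let K1 := Gam D 1
  have h31 : Gam D 3 ≤ K1 := by
    rintro g ⟨hg, X, hX, hgX⟩
    refine ⟨hg, (3 : KD D) • X, ?_, ?_⟩
    · intro i j
      rw [Matrix.smul_apply, smul_eq_mul]
      have h3 : (3 : KD D) ∈ RR D := by
        exact_mod_cast natCast_mem (RR D) 3
      exact (RR D).mul_mem h3 (hX i j)
    · rw [hgX]; simp
  let G' : Subgroup K1 := G.subgroupOf K1
  have hfi : G'.index ≠ 0 := hidx
  have : G'.FiniteIndex := ⟨hfi⟩
  have : Finite (K1 ⧸ G') := inferInstance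
  let r : (K1 ⧸ G') → K1 := fun q => q.out
  refine ⟨⋃ q : K1 ⧸ G', CMT.act D (r q)⁻¹.1 '' C, ?_, ?_, ?_⟩
  · refine isCompact_iUnion fun q => ?_
    exact hC.image_of_continuousOn ((act_continuousOn D (r q)⁻¹.2.1).mono hCB)
  · refine Set.iUnion_subset fun q => ?_
    rintro _ ⟨z, hz, rfl⟩
    exact act_mem_Ball D (r q)⁻¹.2.1 (hCB hz)
  · intro z hz
    obtain ⟨g, hg3, hgC⟩ := H z hz
    let g1 : K1 := ⟨g, h31 hg3⟩
    let q : K1 ⧸ G' := (g1 : K1 ⧸ G')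
    have h1 : (r q)⁻¹ * g1 ∈ G' := by
      rw [← QuotientGroup.eq]
      exact Quotient.out_eq' q
    refine ⟨((r q)⁻¹ * g1 : K1).1, h1, ?_⟩
    refine Set.mem_iUnion.2 ⟨q, CMT.act D g z, hgC, ?_⟩
    have h2 : ((r q)⁻¹ * g1 : K1).1 = (r q)⁻¹.1 * g := rfl
    rw [h2]
    exact (act_mul_Ball D _ hg3.1 hz).symm

end

end CMT.Cpt

/-- Godement compactness. -/
theorem CMT.s_Cpt : CMT.S_Cpt := CMT.Cpt.cpt
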