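import Mathlib

/-!
PROJECT CMT, part D (cocompactness), module 2 (helper45): the ring `K = F(√-D)` of a totally real
number field `F` with `D` totally positive, its embeddings in `ℂ`, integrality and finiteness.

`Kq D` is Mathlib's quadratic algebra with `ω ^ 2 = -D` (no field structure is used);
`emb hD t : Kq D →+* ℂ` is `x + y ω ↦ t x + i √(t D) t y`.
-/

namespace CMT.Cpt

open NumberField Module

variable {F : Type*} [Field F]

/-- The ring `F(√-D)`. -/
abbrev Kq (D : F) := QuadraticAlgebra F (-D) 0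

/-- The embedding `x + y ω ↦ t x + i √(t D) t y`. -/
noncomputable def emb {D : F} (hD : ∀ t : F →+* ℝ, 0 < t D) (t : F →+* ℝ) : Kq D →+* ℂ where
  toFun w := (t w.re : ℂ) + (Real.sqrt (t D) : ℂ) * Complex.I * (t w.im : ℂ)
  map_one' := by simp [QuadraticAlgebra.re_one, QuadraticAlgebra.im_one]
  map_zero' := by simp
  map_add' a b := by simp; ring
  map_mul' a b := by
    have h : ((Real.sqrt (t D) : ℝ) : ℂ) ^ 2 = (t D : ℂ) := by
      rw [← Complex.ofReal_pow, Real.sq_sqrt (hD t).le]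
    have hI : Complex.I ^ 2 = -1 := Complex.I_sq
    simp only [QuadraticAlgebra.re_mul, QuadraticAlgebra.im_mul, map_add, map_mul, map_neg,
      map_zero, Complex.ofReal_add, Complex.ofReal_mul, Complex.ofReal_neg, Complex.ofReal_zero]
    linear_combination (-(t a.im : ℂ) * (t b.im : ℂ) * Complex.I ^ 2) * h -
      ((t D : ℂ) * (t a.im : ℂ) * (t b.im : ℂ)) * hI

section

variable {D : F} (hD : ∀ t : F →+* ℝ, 0 < t D) (t : F →+* ℝ)

lemma emb_apply (w : Kq D) :
    emb hD t w = (t w.re : ℂ) + (Real.sqrt (t D) : ℂ) * Complex.I * (t w.im : ℂ) := rfl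

lemma emb_re (w : Kq D) : (emb hD t w).re = t w.re := by simp [emb_apply]

lemma emb_im (w : Kq D) : (emb hD t w).im = Real.sqrt (t D) * t w.im := by simp [emb_apply]

lemma emb_star (w : Kq D) : emb hD t (star w) = (starRingEnd ℂ) (emb hD t w) := by
  apply Complex.ext
  · simp [emb_re]
  · simp [emb_im]

lemma emb_algebraMap (x : F) : emb hD t (algebraMap F (Kq D) x) = (t x : ℂ) := by
  simp [emb_apply]

lemma abs_re_le (w : Kq D) : |t w.re| ≤ ‖emb hD t w‖ := by
  rw [← emb_re hD]; exact Complex.abs_re_le_norm _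

lemma abs_im_le (w : Kq D) : Real.sqrt (t D) * |t w.im| ≤ ‖emb hD t w‖ := by
  have h := Complex.abs_im_le_norm (emb hD t w)
  rwa [emb_im, abs_mul, abs_of_nonneg (Real.sqrt_nonneg _)] at h

lemma emb_eq_zero {w : Kq D} (h : emb hD t w = 0) : w = 0 := by
  have h1 : t w.re = 0 := by rw [← emb_re hD, h]; rfl
  have h2 : Real.sqrt (t D) * t w.im = 0 := by rw [← emb_im hD, h]; rfl
  have h3 : t w.im = 0 := by
    rcases mul_eq_zero.1 h2 with h3 | h3
    · exact absurd h3 (Real.sqrt_pos.2 (hD t)).ne'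
    · exact h3
  apply QuadraticAlgebra.ext
  · exact (map_eq_zero t).1 h1
  · exact (map_eq_zero t).1 h3

lemma isUnit_of_emb_ne_zero {w : Kq D} (h : emb hD t w ≠ 0) : IsUnit w := by
  rw [QuadraticAlgebra.isUnit_iff_norm_isUnit, isUnit_iff_ne_zero]
  intro h0
  have h1 := QuadraticAlgebra.algebraMap_norm_eq_mul_star w
  rw [h0, map_zero] at h1
  have h2 := congrArg (emb hD t) h1
  rw [map_zero, map_mul, emb_star] at h2
  rcases mul_eq_zero.1 h2.symm with h3 | h3
  · exact h h3
  · exact h ((map_eq_zero _).1 h3)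

end

/-! ### Totally real fields -/

section real

variable [NumberField F] [IsTotallyReal F]

omit [NumberField F] in
lemma exists_real (σ : F →+* ℂ) : ∃ t : F →+* ℝ, ∀ x, σ x = (t x : ℂ) := by
  have h := IsTotallyReal.complexEmbedding_isReal σ
  exact ⟨h.embedding, fun x => (h.coe_embedding_apply x).symm⟩

variable (F) in
lemma card_T : Fintype.card (F →+* ℝ) = finrank ℚ F := by
  rw [← NumberField.Embeddings.card F ℂ]
  refine Fintype.card_congr (Equiv.ofBijective (fun t => Complex.ofRealHom.comp t) ⟨?_, ?_⟩)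
  · intro t t' h
    ext x
    have := RingHom.congr_fun h x
    simpa using this
  · intro σ
    obtain ⟨t, ht⟩ := exists_real σ
    exact ⟨t, by ext x; simpa using (ht x).symm⟩

lemma finite_bdd (B : ℝ) : {x : F | IsIntegral ℤ x ∧ ∀ t : F →+* ℝ, |t x| ≤ B}.Finite := by
  refine (Embeddings.finite_of_norm_le F ℂ B).subset ?_
  rintro x ⟨h1, h2⟩
  refine ⟨h1, fun σ => ?_⟩
  obtain ⟨t, ht⟩ := exists_real σ
  rw [ht, Complex.norm_real]
  exact h2 t

lemma exists_one_le {x : F} (hx : IsIntegral ℤ x) (h0 : x ≠ 0) : ∃ t : F →+* ℝ, 1 ≤ |t x| := by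
  let w₀ : InfinitePlace F := Classical.arbitrary _
  have key : ∃ w : InfinitePlace F, 1 ≤ w x := by
    by_contra hcon
    push Not at hcon
    have := InfinitePlace.one_le_of_lt_one (w := w₀) (a := (⟨x, hx⟩ : 𝓞 F))
      (fun h => h0 (congrArg Subtype.val h)) (fun z _ => hcon z)
    exact absurd this (not_le.2 (hcon w₀))
  obtain ⟨w, hw⟩ := key
  obtain ⟨t, ht⟩ := exists_real w.embedding
  refine ⟨t, ?_⟩
  rwa [← InfinitePlace.norm_embedding_eq w x, ht, Complex.norm_real] at hw

/-- A `ℤ`-basis of the integers is linearly independent over `ℝ` in `ℝ^T`. -/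
lemma linIndep_basis {c : Free.ChooseBasisIndex ℤ (𝓞 F) → ℝ}
    (h : ∀ t : F →+* ℝ, ∑ j, c j * t (RingOfIntegers.basis F j : F) = 0) : c = 0 := by
  have h1 := (canonicalEmbedding.latticeBasis F).linearIndependent
  rw [Fintype.linearIndependent_iff] at h1
  have h2 := h1 (fun j => (c j : ℂ)) (by
    funext σ
    obtain ⟨t, ht⟩ := exists_real σ
    have h3 := congrArg (fun r : ℝ => (r : ℂ)) (h t)
    simp only [Complex.ofReal_sum, Complex.ofReal_mul, Complex.ofReal_zero] at h3
    rw [Finset.sum_apply, Pi.zero_apply, ← h3]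
    refine Finset.sum_congr rfl fun j _ => ?_
    rw [Pi.smul_apply, canonicalEmbedding.latticeBasis_apply, integralBasis_apply,
      canonicalEmbedding.apply_at, ht, smul_eq_mul])
  funext j
  have := h2 j
  simpa using this

variable {D : F} (hD : ∀ t : F →+* ℝ, 0 < t D)

omit [IsTotallyReal F] in
/-- Every element has an integral multiple. -/
lemma exists_mul_integral (s : Finset F) : ∃ n : ℕ, 0 < n ∧ ∀ x ∈ s, IsIntegral ℤ ((n : F) * x) := by
  have : Algebra.IsAlgebraic ℤ F :=
    (IsFractionRing.comap_isAlgebraic_iff (A := ℤ) (K := ℚ) (C := F)).2 inferInstance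
  obtain ⟨y, hy, h⟩ := Algebra.IsAlgebraic.exists_integral_multiples ℤ s
  refine ⟨y.natAbs, Int.natAbs_pos.2 hy, fun x hx => ?_⟩
  have h1 := h x hx
  rw [zsmul_eq_mul] at h1
  rcases Int.natAbs_eq y with h2 | h2
  · rw [h2, Int.cast_natCast] at h1
    exact h1
  · rw [h2, Int.cast_neg, Int.cast_natCast, neg_mul] at h1
    simpa using h1.neg

omit [NumberField F] [IsTotallyReal F] in
lemma isIntegral_mk_zero {x : F} (hx : IsIntegral ℤ x) : IsIntegral ℤ (⟨x, 0⟩ : Kq D) := by
  exact hx.map (algebraMap F (Kq D)).toIntAlgHom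

variable (D) in
omit [IsTotallyReal F] in
/-- `k ω` is integral for some `k ≥ 1`. -/
lemma exists_k : ∃ k : ℕ, 0 < k ∧ IsIntegral ℤ (⟨0, k⟩ : Kq D) := by
  obtain ⟨k, hk, h⟩ := exists_mul_integral ({D} : Finset F)
  refine ⟨k, hk, ?_⟩
  have h1 : IsIntegral ℤ ((k : F) * (k * D)) :=
    (isIntegral_natCast (R := ℤ) (a := k)).mul (h D (by simp))
  have h2 : IsIntegral ℤ ((⟨0, k⟩ : Kq D) ^ 2) := by
    have h3 : (⟨0, k⟩ : Kq D) ^ 2 = ⟨-((k : F) * (k * D)), 0⟩ := by
      rw [pow_two, QuadraticAlgebra.mk_mul_mk]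
      congr 1 <;> ring
    rw [h3]
    exact isIntegral_mk_zero h1.neg
  exact h2.of_pow (by norm_num)

omit [NumberField F] [IsTotallyReal F] in
lemma isIntegral_star {w : Kq D} (hw : IsIntegral ℤ w) : IsIntegral ℤ (star w) :=
  map_isIntegral_int (starRingEnd (Kq D)) hw

omit [NumberField F] [IsTotallyReal F] in
lemma isIntegral_of_mk {x : F} (hx : IsIntegral ℤ (⟨x, 0⟩ : Kq D)) : IsIntegral ℤ x := by
  have h : IsIntegral ℤ (algebraMap F (Kq D) x) := hx
  exact (isIntegral_algebraMap_iff QuadraticAlgebra.algebraMap_injective).1 h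

include hD in
/-- Coordinates of integral elements have bounded denominators. -/
lemma exists_M : ∃ M : ℕ, 0 < M ∧ ∀ w : Kq D, IsIntegral ℤ w →
    IsIntegral ℤ ((M : F) * w.re) ∧ IsIntegral ℤ ((M : F) * w.im) := by
  classical
  obtain ⟨k, hk, hkD⟩ := exists_k D
  have hD0 : D ≠ 0 := by
    intro h
    obtain ⟨t, -⟩ := exists_one_le (F := F) (isIntegral_one (R := ℤ)) one_ne_zero
    have := hD t
    rw [h, map_zero] at this
    exact lt_irrefl _ this
  obtain ⟨M', hM', hM⟩ := exists_mul_integral ({(2 * k * D)⁻¹} : Finset F)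
  have hM := hM _ (Finset.mem_singleton_self _)
  refine ⟨2 * M', by positivity, fun w hw => ⟨?_, ?_⟩⟩
  · have h1 : IsIntegral ℤ (w + star w) := hw.add (isIntegral_star hw)
    have h2 : w + star w = ⟨2 * w.re, 0⟩ := by
      apply QuadraticAlgebra.ext <;> simp; ring
    rw [h2] at h1
    have h3 := (isIntegral_natCast (R := ℤ) (a := M')).mul (isIntegral_of_mk h1)
    have h4 : ((2 * M' : ℕ) : F) * w.re = M' * (2 * w.re) := by push_cast; ring
    rw [h4]; exact h3
  · have h1 : IsIntegral ℤ ((w - star w) * ⟨0, k⟩) := (hw.sub (isIntegral_star hw)).mul hkD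
    have h2 : (w - star w) * ⟨0, k⟩ = ⟨-(2 * k * D * w.im), 0⟩ := by
      apply QuadraticAlgebra.ext <;> simp; ring
    rw [h2] at h1
    have h3 := (isIntegral_of_mk h1).neg
    rw [neg_neg] at h3
    have h4 := (isIntegral_natCast (R := ℤ) (a := 2)).mul (hM.mul h3)
    have h5 : ((2 * M' : ℕ) : F) * w.im
        = ((2 : ℕ) : F) * ((M' : F) * (2 * k * D)⁻¹ * (2 * k * D * w.im)) := by
      have hk' : (k : F) ≠ 0 := by exact_mod_cast hk.ne'
      push_cast
      field_simp
    rw [h5]; exact h4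

lemma finite_bdd_K (B : ℝ) :
    {w : Kq D | IsIntegral ℤ w ∧ ∀ t : F →+* ℝ, ‖emb hD t w‖ ≤ B}.Finite := by
  obtain ⟨M, hM, H⟩ := exists_M hD
  -- a bound of `1 / √(t D)`
  let C : ℝ := ∑ t : F →+* ℝ, (Real.sqrt (t D))⁻¹
  have hC : ∀ t : F →+* ℝ, (Real.sqrt (t D))⁻¹ ≤ C := fun t =>
    Finset.single_le_sum (f := fun t : F →+* ℝ => (Real.sqrt (t D))⁻¹)
      (fun t _ => inv_nonneg.2 (Real.sqrt_nonneg _)) (Finset.mem_univ t)
  have hfin := (finite_bdd (F := F) (M * B)).prod (finite_bdd (F := F) (M * (C * B)))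
  refine Set.Finite.of_injOn (f := fun w : Kq D => ((M : F) * w.re, (M : F) * w.im)) ?_ ?_ hfin
  · rintro w ⟨hw, hB⟩
    refine ⟨⟨(H w hw).1, fun t => ?_⟩, ⟨(H w hw).2, fun t => ?_⟩⟩
    · simp only [map_mul, map_natCast, abs_mul, Nat.abs_cast]
      exact mul_le_mul_of_nonneg_left ((abs_re_le hD t w).trans (hB t)) (Nat.cast_nonneg _)
    · simp only [map_mul, map_natCast, abs_mul, Nat.abs_cast]
      refine mul_le_mul_of_nonneg_left ?_ (Nat.cast_nonneg _)
      have h1 := (abs_im_le hD t w).trans (hB t)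
      have h0 : 0 < Real.sqrt (t D) := Real.sqrt_pos.2 (hD t)
      have hB0 : 0 ≤ B := (norm_nonneg _).trans (hB t)
      calc |t w.im| = (Real.sqrt (t D))⁻¹ * (Real.sqrt (t D) * |t w.im|) := by
            field_simp
        _ ≤ (Real.sqrt (t D))⁻¹ * B := mul_le_mul_of_nonneg_left h1 (inv_nonneg.2 h0.le)
        _ ≤ C * B := mul_le_mul_of_nonneg_right (hC t) hB0
  · rintro w - w' - h
    have hM' : (M : F) ≠ 0 := by exact_mod_cast hM.ne'
    simp only [Prod.mk.injEq] at h
    exact QuadraticAlgebra.ext (mul_left_cancel₀ hM' h.1) (mul_left_cancel₀ hM' h.2)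

omit [IsTotallyReal F] in
lemma exists_mul_integral_K (s : Finset (Kq D)) :
    ∃ n : ℕ, 0 < n ∧ ∀ w ∈ s, IsIntegral ℤ ((n : Kq D) * w) := by
  classical
  obtain ⟨k, hk, hkD⟩ := exists_k D
  obtain ⟨n, hn, H⟩ := exists_mul_integral (s.image (fun w => w.re) ∪ s.image (fun w => w.im))
  refine ⟨k * n, by positivity, fun w hw => ?_⟩
  have h1 := H w.re (by simp only [Finset.mem_union, Finset.mem_image]; exact Or.inl ⟨w, hw, rfl⟩)
  have h2 := H w.im (by simp only [Finset.mem_union, Finset.mem_image]; exact Or.inr ⟨w, hw, rfl⟩)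
  have h3 : ((k * n : ℕ) : Kq D) * w
      = (k : Kq D) * ⟨(n : F) * w.re, 0⟩ + ⟨0, k⟩ * ⟨(n : F) * w.im, 0⟩ := by
    apply QuadraticAlgebra.ext <;> simp <;> ring
  rw [h3]
  exact ((isIntegral_natCast (R := ℤ) (a := k)).mul (isIntegral_mk_zero h1)).add
    (hkD.mul (isIntegral_mk_zero h2))

/-! ### The lattice -/

variable (F) in
/-- Index set of the basis of `O^3`. -/
abbrev Ix := Fin 3 × Free.ChooseBasisIndex ℤ (𝓞 F) × Fin 2

/-- The vectors of the basis. -/
noncomputable def Bv (D : F) (k : ℕ) (x : Ix F) : Fin 3 → Kq D :=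
  Pi.single x.1 (if x.2.2 = 0 then ⟨(RingOfIntegers.basis F x.2.1 : F), 0⟩
    else ⟨0, (k : F) * (RingOfIntegers.basis F x.2.1 : F)⟩)

variable (F) in
/-- The real Euclidean space of `V`. -/
abbrev VR := EuclideanSpace ℂ (Fin 3 × (F →+* ℝ))

/-- The embedding of `K^3` in `VR`. -/
noncomputable def vec : (Fin 3 → Kq D) →+ VR F where
  toFun v := WithLp.toLp 2 (fun p => emb hD p.2 (v p.1))
  map_zero' := by ext p; simp
  map_add' v w := by ext p; simp

omit [NumberField F] [IsTotallyReal F] in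
lemma vec_apply (v : Fin 3 → Kq D) (i : Fin 3) (t : F →+* ℝ) :
    vec hD v (i, t) = emb hD t (v i) := rfl

lemma indep {k : ℕ} (hk : 0 < k) : LinearIndependent ℝ (fun x : Ix F => vec hD (Bv D k x)) := by
  rw [Fintype.linearIndependent_iff]
  intro c hc
  have hcomp : ∀ (i : Fin 3) (t : F →+* ℝ),
      (∑ x : Ix F, (c x : ℂ) * emb hD t (Bv D k x i)) = 0 := by
    intro i t
    have h := congrArg (fun v : VR F => v (i, t)) hc
    simpa [PiLp.smul_apply, vec_apply] using h
  have h0 : ∀ i e, (fun j => c (i, j, e)) = 0 := by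
    intro i e
    apply linIndep_basis
    intro t
    have h := hcomp i t
    rw [Fintype.sum_prod_type] at h
    rw [Finset.sum_eq_single i] at h
    · rw [Fintype.sum_prod_type] at h
      simp only [Fin.sum_univ_two, Bv, Pi.single_eq_same] at h
      have hre := congrArg Complex.re h
      have him := congrArg Complex.im h
      simp only [Complex.re_sum, Complex.im_sum, Complex.add_re, Complex.add_im,
        Complex.re_ofReal_mul, Complex.im_ofReal_mul, emb_re, emb_im] at hre him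
      fin_cases e
      · simpa using hre
      · simp only [Fin.isValue, ↓reduceIte, map_zero, mul_zero, one_ne_zero, map_mul, map_natCast,
          zero_add, Complex.zero_im] at him
        have h1 : Real.sqrt (t D) * k * ∑ j, c (i, j, 1) * t (RingOfIntegers.basis F j : F) = 0 := by
          rw [Finset.mul_sum, ← him]
          exact Finset.sum_congr rfl fun j _ => by ring
        have h2 : Real.sqrt (t D) * k ≠ 0 :=
          mul_ne_zero (Real.sqrt_pos.2 (hD t)).ne' (by exact_mod_cast hk.ne')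
        exact (mul_eq_zero.1 h1).resolve_left h2
    · intro i' _ hi'
      refine Finset.sum_eq_zero fun x _ => ?_
      simp [Bv, Pi.single_eq_of_ne hi'.symm]
    · intro h; exact absurd (Finset.mem_univ i) h
  rintro ⟨i, j, e⟩
  exact congrFun (h0 i e) j

variable (F) in
lemma finrank_VR : finrank ℝ (VR F) = Fintype.card (Ix F) := by
  rw [← Module.finrank_mul_finrank ℝ ℂ (VR F), Complex.finrank_real_complex, finrank_euclideanSpace]
  simp only [Fintype.card_prod, Fintype.card_fin, card_T]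
  rw [← Module.finrank_eq_card_chooseBasisIndex, RingOfIntegers.rank]
  ring

variable (F) in
lemma card_Ix_pos : 0 < Fintype.card (Ix F) := by
  rw [← finrank_VR, ← Module.finrank_mul_finrank ℝ ℂ (VR F), Complex.finrank_real_complex,
    finrank_euclideanSpace]
  simp only [Fintype.card_prod, Fintype.card_fin, card_T]
  have : 0 < finrank ℚ F := finrank_pos
  omega

/-- The basis of `VR` over `ℝ`. -/
noncomputable def bE {k : ℕ} (hk : 0 < k) : Basis (Ix F) ℝ (VR F) :=
  haveI : Nonempty (Ix F) := Fintype.card_pos_iff.1 (card_Ix_pos F)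
  basisOfLinearIndependentOfCardEqFinrank (indep hD hk) (finrank_VR F).symm

lemma bE_apply {k : ℕ} (hk : 0 < k) (x : Ix F) : bE hD hk x = vec hD (Bv D k x) := by
  simp [bE]

/-- The vector with coordinates `c`. -/
noncomputable def comb (D : F) (k : ℕ) (c : Ix F → ℤ) : Fin 3 → Kq D := ∑ x, c x • Bv D k x

lemma mem_span {k : ℕ} (hk : 0 < k) {v : VR F}
    (hv : v ∈ Submodule.span ℤ (Set.range (bE hD hk))) :
    ∃ c : Ix F → ℤ, v = vec hD (comb D k c) := by
  rw [Submodule.mem_span_range_iff_exists_fun] at hv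
  obtain ⟨c, hc⟩ := hv
  refine ⟨c, ?_⟩
  rw [← hc, comb, map_sum]
  refine Finset.sum_congr rfl fun x _ => ?_
  rw [bE_apply, map_zsmul]

omit [IsTotallyReal F] in
lemma isIntegral_comb {k : ℕ} (hkD : IsIntegral ℤ (⟨0, k⟩ : Kq D)) (c : Ix F → ℤ) (i : Fin 3) :
    IsIntegral ℤ (comb D k c i) := by
  rw [comb, Finset.sum_apply]
  refine IsIntegral.sum _ fun x _ => ?_
  rw [Pi.smul_apply]
  refine IsIntegral.zsmul ?_ _
  have hb : IsIntegral ℤ (RingOfIntegers.basis F x.2.1 : F) :=
    RingOfIntegers.isIntegral_coe _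
  have h1 : IsIntegral ℤ (if x.2.2 = 0 then ⟨(RingOfIntegers.basis F x.2.1 : F), 0⟩
      else ⟨0, (k : F) * (RingOfIntegers.basis F x.2.1 : F)⟩ : Kq D) := by
    split_ifs
    · exact isIntegral_mk_zero hb
    · have h2 : (⟨0, (k : F) * (RingOfIntegers.basis F x.2.1 : F)⟩ : Kq D)
          = ⟨0, k⟩ * ⟨(RingOfIntegers.basis F x.2.1 : F), 0⟩ := by
        apply QuadraticAlgebra.ext <;> simp
      rw [h2]
      exact hkD.mul (isIntegral_mk_zero hb)
  rw [Bv]
  by_cases hi : i = x.1
  · subst hi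
    rw [Pi.single_eq_same]; exact h1
  · rw [Pi.single_eq_of_ne hi]; exact isIntegral_zero

omit [IsTotallyReal F] in
lemma comb_sub {k : ℕ} (c c' d : Ix F → ℤ) (n : ℤ) (h : ∀ x, c x - c' x = n * d x) :
    comb D k c - comb D k c' = n • comb D k d := by
  simp only [comb, ← Finset.sum_sub_distrib, ← sub_smul, Finset.smul_sum, smul_smul, h]

end real

end CMT.Cpt
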