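import Pool.Agent.Lib.CMT.B.Br

/-!
# CMT, part D: finitely many elements of the order with bounded conjugates

`F` is totally real.
-/

set_option autoImplicit false

namespace CMT.D

open NumberField

variable {F : Type} [Field F] [NumberField F]

/-- The complex embeddings of a totally real field come from the real embeddings. -/
theorem exists_real (F : Type) [Field F] [NumberField F] [IsTotallyReal F] (φ : F →+* ℂ) :
    ∃ t : F →+* ℝ, ∀ x, φ x = ((t x : ℝ) : ℂ) := by
  have h1 : ComplexEmbedding.IsReal φ :=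
    InfinitePlace.isReal_of_mk_isReal (IsTotallyReal.isReal (InfinitePlace.mk φ))
  exact ⟨h1.embedding, fun x => (h1.coe_embedding_apply x).symm⟩

/-- Finitely many algebraic integers with bounded conjugates. -/
theorem finite_int (F : Type) [Field F] [NumberField F] [IsTotallyReal F] (B : ℝ) :
    {x : F | IsIntegral ℤ x ∧ ∀ t : F →+* ℝ, |t x| ≤ B}.Finite := by
  refine (Embeddings.finite_of_norm_le F ℂ B).subset ?_
  rintro x ⟨h1, h2⟩
  refine ⟨h1, fun φ => ?_⟩
  obtain ⟨t, ht⟩ := exists_real F φ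
  rw [ht x, Complex.norm_real]
  exact h2 t

theorem ev_re (D : Dat F) (t : F →+* ℝ) (v : KD D) : (ev D t v).re = t v.re := by
  show (((t v.re : ℝ) : ℂ) + Complex.I * ((Real.sqrt (t D.del) : ℝ) : ℂ) * ((t v.im : ℝ) : ℂ)).re = _
  simp

theorem ev_im (D : Dat F) (t : F →+* ℝ) (v : KD D) :
    (ev D t v).im = Real.sqrt (t D.del) * t v.im := by
  show (((t v.re : ℝ) : ℂ) + Complex.I * ((Real.sqrt (t D.del) : ℝ) : ℂ) * ((t v.im : ℝ) : ℂ)).im = _
  simp

/-- Finitely many elements of `R = O_F + O_F δ` with bounded conjugates. -/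
theorem finite_RR [IsTotallyReal F] (D : Dat F) (B : ℝ) :
    {v : KD D | v ∈ RR D ∧ ∀ t : F →+* ℝ, ‖ev D t v‖ ≤ B}.Finite := by
  classical
  obtain ⟨C, hC⟩ : ∃ C : ℝ, ∀ t : F →+* ℝ, B / Real.sqrt (t D.del) ≤ C := by
    obtain ⟨C, hC⟩ := (Set.finite_range fun t : F →+* ℝ => B / Real.sqrt (t D.del)).bddAbove
    exact ⟨C, fun t => hC ⟨t, rfl⟩⟩
  have h1 := finite_int F (max B C)
  have h2 := h1.prod h1
  refine Set.Finite.of_finite_image (f := fun v : KD D => (v.re, v.im)) (h2.subset ?_) ?_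
  · rintro _ ⟨v, ⟨⟨hr, hi⟩, hb⟩, rfl⟩
    refine ⟨⟨hr, fun t => ?_⟩, ⟨hi, fun t => ?_⟩⟩
    · refine le_trans ?_ (le_max_left B C)
      rw [← ev_re D t v]
      exact (Complex.abs_re_le_norm _).trans (hb t)
    · refine le_trans ?_ (le_max_right B C)
      refine le_trans ?_ (hC t)
      have hs : 0 < Real.sqrt (t D.del) := Real.sqrt_pos.2 (D.del_pos t)
      rw [le_div_iff₀ hs]
      have h3 := (Complex.abs_im_le_norm (ev D t v)).trans (hb t)
      rw [ev_im, abs_mul, abs_of_pos hs] at h3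
      rwa [mul_comm]
  · intro v _ w _ hvw
    have e := Prod.ext_iff.1 hvw
    exact QuadraticAlgebra.ext e.1 e.2

/-- Finitely many matrices with entries in `R` with bounded conjugates. -/
theorem finite_mat [IsTotallyReal F] (D : Dat F) (B : ℝ) :
    {X : Matrix (Fin 3) (Fin 3) (KD D) | ∀ i j, X i j ∈ RR D ∧ ∀ t : F →+* ℝ, ‖ev D t (X i j)‖ ≤ B}.Finite := by
  have h1 := finite_RR D B
  have h2 : (Set.pi Set.univ fun _ : Fin 3 => Set.pi Set.univ fun _ : Fin 3 =>
      {v : KD D | v ∈ RR D ∧ ∀ t : F →+* ℝ, ‖ev D t v‖ ≤ B}).Finite :=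
    Set.Finite.pi fun _ => Set.Finite.pi fun _ => h1
  refine h2.subset ?_
  intro X hX i _ j _
  exact hX i j

end CMT.D
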