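import Mathlib

/-!
# Minkowski's lemma: an automorphism of finite order which is `1` modulo `m ≥ 3` is `1`
-/

set_option autoImplicit false

namespace CMT.D

variable {A : Type*} [Ring A]

theorem mk_exp2 (X : A) (n : ℕ) : ∃ W : A, (1 + X) ^ n = 1 + n • X + X ^ 2 * W := by
  induction n with
  | zero => exact ⟨0, by simp⟩
  | succ n ih =>
    obtain ⟨W, hW⟩ := ih
    refine ⟨n • 1 + W + W * X, ?_⟩
    rw [pow_succ, hW]
    simp only [mul_add, add_mul, one_mul, mul_one, smul_mul_assoc, mul_smul_comm, add_smul, one_smul,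
      mul_assoc, pow_two]
    abel

theorem mk_exp3 (X : A) (n : ℕ) :
    ∃ W : A, (1 + X) ^ n = 1 + n • X + (n.choose 2) • X ^ 2 + X ^ 3 * W := by
  induction n with
  | zero => exact ⟨0, by simp⟩
  | succ n ih =>
    obtain ⟨W, hW⟩ := ih
    refine ⟨n.choose 2 • 1 + W + W * X, ?_⟩
    have e : (n + 1).choose 2 = n + n.choose 2 := by
      rw [Nat.choose_succ_succ', Nat.choose_one_right]
    rw [pow_succ, hW, e]
    have e3 : X ^ 3 = X ^ 2 * X := pow_succ X 2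
    simp only [e3, mul_add, add_mul, one_mul, mul_one, smul_mul_assoc, mul_smul_comm, add_smul, one_smul,
      mul_assoc, pow_two]
    abel

/-- `X` is divisible by `a`. -/
def DvdN (a : ℕ) (X : A) : Prop := ∃ Y : A, X = a • Y

theorem mk_prime (ℓ p s : ℕ) (hℓ : ℓ.Prime) (hp : p.Prime) (hs : 1 ≤ s) (h4 : ℓ = 2 → 2 ≤ s)
    (htf : ∀ (a : ℕ) (X : A), a ≠ 0 → a • X = 0 → X = 0) (Y : A)
    (h : (1 + ℓ ^ s • Y) ^ p = 1) : DvdN ℓ Y := by
  have hcan : ∀ (a : ℕ) (U V : A), a ≠ 0 → a • U = a • V → U = V := by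
    intro a U V ha hUV
    have := htf a (U - V) ha (by rw [smul_sub, hUV, sub_self])
    exact sub_eq_zero.1 this
  have hl0 : ℓ ≠ 0 := hℓ.ne_zero
  obtain ⟨r, rfl⟩ : ∃ r, s = r + 1 := ⟨s - 1, by omega⟩
  by_cases hpl : p = ℓ
  · subst hpl
    rcases hp.eq_two_or_odd' with h2 | hodd
    · -- p = ℓ = 2
      subst h2
      have hr := h4 rfl
      obtain ⟨q, rfl⟩ : ∃ q, r = q + 1 := ⟨r - 1, by omega⟩
      have e1 : (2 : ℕ) • ((2 : ℕ) ^ (q + 1 + 1) • Y) + ((2 : ℕ) ^ (q + 1 + 1) • Y) ^ 2 = 0 := by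
        have e : (1 + (2 : ℕ) ^ (q + 1 + 1) • Y) ^ 2 =
            1 + ((2 : ℕ) • ((2 : ℕ) ^ (q + 1 + 1) • Y) + ((2 : ℕ) ^ (q + 1 + 1) • Y) ^ 2) := by
          have hX : ∀ X : A, (1 + X) ^ 2 = 1 + ((2 : ℕ) • X + X ^ 2) := by
            intro X
            rw [two_smul, sq, sq]
            simp only [mul_add, add_mul, one_mul, mul_one]
            abel
          exact hX _
        rw [h] at e
        exact (left_eq_add.1 e)
      refine ⟨-((2 : ℕ) ^ q • Y ^ 2), ?_⟩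
      refine hcan (2 ^ (q + 1 + 1 + 1)) _ _ (by positivity) ?_
      have e2 : ((2 : ℕ) ^ (q + 1 + 1) • Y) ^ 2 = ((2 : ℕ) ^ (2 * (q + 1 + 1))) • Y ^ 2 := by
        rw [smul_pow, ← pow_mul, mul_comm]
      rw [e2, smul_smul] at e1
      rw [smul_neg, smul_neg, smul_smul, smul_smul, ← sub_eq_zero, sub_neg_eq_add]
      rw [← e1]
      congr 1
      · congr 1
        ring
      · congr 1
        ring
    · -- p = ℓ odd
      obtain ⟨c, hc⟩ : ∃ c, p.choose 2 = p * c := by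
        obtain ⟨k, hk⟩ := hodd
        refine ⟨k, ?_⟩
        rw [Nat.choose_two_right]
        have : p * (p - 1) = 2 * (p * k) := by
          have : p - 1 = 2 * k := by omega
          rw [this]
          ring
        rw [this, Nat.mul_div_cancel_left _ two_pos]
      obtain ⟨W, hW⟩ := mk_exp3 (p ^ (r + 1) • Y) p
      rw [h] at hW
      have e1 : p • (p ^ (r + 1) • Y) + (p.choose 2) • (p ^ (r + 1) • Y) ^ 2 +
          (p ^ (r + 1) • Y) ^ 3 * W = 0 := by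
        have : (1 : A) + (p • (p ^ (r + 1) • Y) + (p.choose 2) • (p ^ (r + 1) • Y) ^ 2 +
          (p ^ (r + 1) • Y) ^ 3 * W) = 1 := by
          rw [← add_assoc, ← add_assoc, ← hW]
        exact add_eq_left.1 this
      refine ⟨-(p ^ r • (c • Y ^ 2) + p ^ (2 * r) • (Y ^ 3 * W)), ?_⟩
      refine hcan (p ^ (r + 1 + 1)) _ _ (pow_ne_zero _ hl0) ?_
      rw [smul_pow, smul_pow, ← pow_mul, ← pow_mul, smul_mul_assoc, smul_smul, smul_smul, hc] at e1
      rw [smul_neg, smul_neg, smul_add, smul_add, smul_smul, smul_smul, smul_smul, smul_smul,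
        smul_smul, ← sub_eq_zero, sub_neg_eq_add, ← e1, ← add_assoc]
      congr 1
      · congr 1
        · congr 1
          ring
        · congr 1
          ring
      · congr 1
        ring
  · obtain ⟨W, hW⟩ := mk_exp2 (ℓ ^ (r + 1) • Y) p
    rw [h] at hW
    have e1 : p • (ℓ ^ (r + 1) • Y) + (ℓ ^ (r + 1) • Y) ^ 2 * W = 0 := by
      have : (1 : A) + (p • (ℓ ^ (r + 1) • Y) + (ℓ ^ (r + 1) • Y) ^ 2 * W) = 1 := by
        rw [← add_assoc, ← hW]
      exact add_eq_left.1 this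
    have e2 : p • Y = ℓ • (-(ℓ ^ r • (Y ^ 2 * W))) := by
      refine hcan (ℓ ^ (r + 1)) _ _ (pow_ne_zero _ hl0) ?_
      rw [smul_pow, ← pow_mul, smul_mul_assoc, smul_smul] at e1
      rw [smul_neg, smul_neg, smul_smul, smul_smul, smul_smul, ← sub_eq_zero, sub_neg_eq_add, ← e1]
      congr 1
      · congr 1
        ring
      · congr 1
        ring
    have hcop : Nat.Coprime p ℓ := (Nat.coprime_primes hp hℓ).2 hpl
    have hbez : IsCoprime (p : ℤ) (ℓ : ℤ) := Nat.isCoprime_iff_coprime.2 hcop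
    obtain ⟨a, b, hab⟩ := hbez
    refine ⟨a • (-(ℓ ^ r • (Y ^ 2 * W))) + b • Y, ?_⟩
    have e3 : Y = (a * p + b * ℓ : ℤ) • Y := by rw [hab, one_smul]
    calc Y = (a * p + b * ℓ : ℤ) • Y := e3
      _ = a • (p • Y) + b • (ℓ • Y) := by
        rw [add_smul, mul_smul, mul_smul, natCast_zsmul, natCast_zsmul]
      _ = a • (ℓ • (-(ℓ ^ r • (Y ^ 2 * W)))) + b • (ℓ • Y) := by rw [e2]
      _ = ℓ • (a • (-(ℓ ^ r • (Y ^ 2 * W))) + b • Y) := by
        rw [smul_add, smul_comm a ℓ, smul_comm b ℓ]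

/-- **Minkowski's lemma** in a ring `A` without torsion in which no nonzero element is infinitely divisible. -/
theorem mk_ring (htf : ∀ (a : ℕ) (X : A), a ≠ 0 → a • X = 0 → X = 0)
    (hsep : ∀ (ℓ : ℕ) (X : A), ℓ.Prime → X ≠ 0 → ∃ s, ¬ DvdN (ℓ ^ s) X) (m : ℕ) (hm : 3 ≤ m) (f : A)
    (hf : DvdN m (f - 1)) (k : ℕ) (hk : 0 < k) (h : f ^ k = 1) : f = 1 := by
  by_contra hne
  -- an element of prime order
  obtain ⟨p, g, hp, hg1, hgp, hgm⟩ : ∃ (p : ℕ) (g : A), p.Prime ∧ g ≠ 1 ∧ g ^ p = 1 ∧ DvdN m (g - 1) := by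
    have hfo : IsOfFinOrder f := isOfFinOrder_iff_pow_eq_one.2 ⟨k, hk, h⟩
    have hn0 : 0 < orderOf f := hfo.orderOf_pos
    have hn1 : orderOf f ≠ 1 := fun h1 => hne (orderOf_eq_one_iff.1 h1)
    obtain ⟨p, hp, hpn⟩ := Nat.exists_prime_and_dvd hn1
    obtain ⟨q, hq⟩ := hpn
    have hq0 : 0 < q := by
      rcases Nat.eq_zero_or_pos q with h0 | h0
      · rw [h0, mul_zero] at hq
        omega
      · exact h0
    refine ⟨p, f ^ q, hp, ?_, ?_, ?_⟩
    · intro h1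
      have h2 := orderOf_dvd_of_pow_eq_one h1
      have h3 := Nat.le_of_dvd hq0 h2
      rw [hq] at h3
      have := hp.two_le
      nlinarith
    · rw [← pow_mul, mul_comm q p, ← hq, pow_orderOf_eq_one]
    · obtain ⟨Y, hY⟩ := hf
      obtain ⟨W, hW⟩ := mk_exp2 (f - 1) q
      rw [add_sub_cancel] at hW
      refine ⟨q • Y + Y * (f - 1) * W, ?_⟩
      rw [hW, smul_add, ← smul_mul_assoc, ← smul_mul_assoc, ← hY, smul_comm m q, ← hY, pow_two]
      abel
  obtain ⟨ℓ, e, hℓ, he, h2e, hdvd⟩ : ∃ ℓ e : ℕ, ℓ.Prime ∧ 1 ≤ e ∧ (ℓ = 2 → 2 ≤ e) ∧ ℓ ^ e ∣ m := by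
    rcases Nat.eq_two_pow_or_exists_odd_prime_and_dvd m with ⟨j, hj⟩ | ⟨q, hq, hqm, hodd⟩
    · refine ⟨2, j, Nat.prime_two, ?_, ?_, by rw [hj]⟩
      · rcases Nat.lt_or_ge j 1 with h1 | h1
        · interval_cases j
          omega
        · exact h1
      · intro _
        rcases Nat.lt_or_ge j 2 with h1 | h1
        · interval_cases j <;> omega
        · exact h1
    · refine ⟨q, 1, hq, le_refl 1, ?_, by rwa [pow_one]⟩
      rintro rfl
      exact absurd hodd (by decide)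
  have hge : DvdN (ℓ ^ e) (g - 1) := by
    obtain ⟨Y, hY⟩ := hgm
    obtain ⟨c, hc⟩ := hdvd
    exact ⟨c • Y, by rw [hY, smul_smul, ← hc]⟩
  have hg0 : g - 1 ≠ 0 := sub_ne_zero.2 hg1
  -- the largest power
  classical
  have hex := hsep ℓ (g - 1) hℓ hg0
  have hmin := Nat.find_spec hex
  obtain ⟨s, hs⟩ : ∃ s, Nat.find hex = s := ⟨_, rfl⟩
  rw [hs] at hmin
  have hmono : ∀ a b : ℕ, a ≤ b → DvdN (ℓ ^ b) (g - 1) → DvdN (ℓ ^ a) (g - 1) := by
    rintro a b hab ⟨Y, hY⟩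
    obtain ⟨c, rfl⟩ := Nat.exists_eq_add_of_le hab
    exact ⟨ℓ ^ c • Y, by rw [hY, smul_smul, ← pow_add]⟩
  have hse : e < s := by
    by_contra hcon
    exact hmin (hmono _ _ (not_lt.1 hcon) hge)
  obtain ⟨s', rfl⟩ : ∃ s', s = s' + 1 := ⟨s - 1, by omega⟩
  have hs' : DvdN (ℓ ^ s') (g - 1) := by
    by_contra hcon
    have := Nat.find_min' hex hcon
    omega
  obtain ⟨Y, hY⟩ := hs'
  have hg : g = 1 + ℓ ^ s' • Y := by rw [← hY, add_sub_cancel]
  obtain ⟨Z, hZ⟩ := mk_prime ℓ p s' hℓ hp (by omega) (fun h2 => by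
    have := h2e h2
    omega) htf Y (by rw [← hg, hgp])
  exact hmin ⟨Z, by rw [hY, hZ, smul_smul, ← pow_succ]⟩

/-- **Minkowski's lemma** for the endomorphisms of `ℤ^n`. -/
theorem mk_end {Λ : Type*} [AddCommGroup Λ] [Module.Free ℤ Λ] [Module.Finite ℤ Λ]
    (f : Module.End ℤ Λ) (m : ℕ) (hm : 3 ≤ m) (hf : ∃ g : Module.End ℤ Λ, f = 1 + m • g) (k : ℕ)
    (hk : 0 < k) (h : f ^ k = 1) : f = 1 := by
  let b := Module.Free.chooseBasis ℤ Λ
  refine mk_ring ?_ ?_ m hm f ?_ k hk h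
  · intro a X ha hX
    refine LinearMap.ext fun v => b.ext_elem fun i => ?_
    have h1 : (a : ℤ) * b.repr (X v) i = 0 := by
      have h2 : a • X v = 0 := by
        have := congrArg (fun F : Module.End ℤ Λ => F v) hX
        simpa using this
      have h3 := congrArg (fun w => b.repr w i) h2
      simpa using h3
    rw [LinearMap.zero_apply, map_zero, Finsupp.zero_apply]
    rcases mul_eq_zero.1 h1 with h4 | h4
    · exact absurd (Int.natCast_eq_zero.1 h4) ha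
    · exact h4
  · intro ℓ X hℓ hX
    obtain ⟨v, hv⟩ : ∃ v, X v ≠ 0 := by
      by_contra hcon
      push Not at hcon
      exact hX (LinearMap.ext hcon)
    obtain ⟨i, hi⟩ : ∃ i, b.repr (X v) i ≠ 0 := by
      by_contra hcon
      push Not at hcon
      exact hv (b.ext_elem fun i => by rw [hcon i, map_zero, Finsupp.zero_apply])
    obtain ⟨s, hs⟩ : ∃ s : ℕ, (b.repr (X v) i).natAbs < ℓ ^ s := ⟨_, Nat.lt_pow_self hℓ.one_lt⟩
    refine ⟨s, ?_⟩
    rintro ⟨Y, hY⟩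
    have h1 : b.repr (X v) i = (ℓ ^ s : ℕ) * b.repr (Y v) i := by
      rw [hY, LinearMap.smul_apply, map_nsmul, Finsupp.smul_apply, nsmul_eq_mul]
    have h2 : ℓ ^ s ∣ (b.repr (X v) i).natAbs := by
      rw [h1, Int.natAbs_mul, Int.natAbs_natCast]
      exact dvd_mul_right _ _
    exact absurd (Nat.le_of_dvd (Int.natAbs_pos.2 hi) h2) (not_le.2 hs)
  · obtain ⟨g, rfl⟩ := hf
    exact ⟨g, by rw [add_sub_cancel_left]⟩

end CMT.D
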