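import Pool.Agent.Lib.CMT.D.Wex
import Pool.Agent.Lib.CMT.D.Mink

/-!
# CMT, part D: `Γ(3)` acts freely on the ball
-/

set_option autoImplicit false

namespace CMT.D

open NumberField

variable {F : Type} [Field F] [NumberField F]

/-- No nonzero element of a free `ℤ`-module of finite rank is infinitely divisible. -/
theorem sep_free {Λ : Type*} [AddCommGroup Λ] [Module.Free ℤ Λ] [Module.Finite ℤ Λ] (ℓ : ℕ)
    (hℓ : ℓ.Prime) (x : Λ) (hx : x ≠ 0) : ∃ s : ℕ, ∀ y : Λ, x ≠ ℓ ^ s • y := by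
  let b := Module.Free.chooseBasis ℤ Λ
  obtain ⟨i, hi⟩ : ∃ i, b.repr x i ≠ 0 := by
    by_contra hcon
    push Not at hcon
    exact hx (b.ext_elem fun i => by rw [hcon i, map_zero, Finsupp.zero_apply])
  obtain ⟨s, hs⟩ : ∃ s : ℕ, (b.repr x i).natAbs < ℓ ^ s := ⟨_, Nat.lt_pow_self hℓ.one_lt⟩
  refine ⟨s, ?_⟩
  intro y hY
  have h1 : b.repr x i = (ℓ ^ s : ℕ) * b.repr y i := by
    rw [hY, map_nsmul, Finsupp.smul_apply, nsmul_eq_mul]
  have h2 : ℓ ^ s ∣ (b.repr x i).natAbs := by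
    rw [h1, Int.natAbs_mul, Int.natAbs_natCast]
    exact dvd_mul_right _ _
  exact absurd (Nat.le_of_dvd (Int.natAbs_pos.2 hi) h2) (not_le.2 hs)

theorem sep_int (F : Type) [Field F] [NumberField F] (ℓ : ℕ) (hℓ : ℓ.Prime) (x : F)
    (hxi : IsIntegral ℤ x) (hx : x ≠ 0) :
    ∃ s : ℕ, ∀ y : F, IsIntegral ℤ y → x ≠ ((ℓ ^ s : ℕ) : F) * y := by
  obtain ⟨s, hs⟩ := sep_free (Λ := 𝓞 F) ℓ hℓ (⟨x, hxi⟩ : 𝓞 F) (fun h => hx (congrArg (algebraMap (𝓞 F) F) h))
  refine ⟨s, fun y hy h => hs ⟨y, hy⟩ ?_⟩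
  obtain ⟨Y, hY⟩ : ∃ Y : 𝓞 F, algebraMap (𝓞 F) F Y = y := ⟨⟨y, hy⟩, rfl⟩
  have e : (⟨y, hy⟩ : 𝓞 F) = Y := RingOfIntegers.ext hY.symm
  refine RingOfIntegers.ext ?_
  rw [e]
  have e2 : algebraMap (𝓞 F) F (ℓ ^ s • Y) = ((ℓ ^ s : ℕ) : F) * y := by
    rw [nsmul_eq_mul, map_mul, map_natCast, hY]
  exact h.trans e2.symm

theorem re_nat_mul (D : Dat F) (n : ℕ) (v : KD D) : ((n : KD D) * v).re = (n : F) * v.re := by
  have hnr : ((n : KD D)).re = (n : F) := by simp
  have hni : ((n : KD D)).im = 0 := by simp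
  rw [QuadraticAlgebra.re_mul, hnr, hni]
  ring

theorem im_nat_mul (D : Dat F) (n : ℕ) (v : KD D) : ((n : KD D) * v).im = (n : F) * v.im := by
  have hnr : ((n : KD D)).re = (n : F) := by simp
  have hni : ((n : KD D)).im = 0 := by simp
  rw [QuadraticAlgebra.im_mul, hnr, hni]
  ring

/-- An integral matrix of finite order, `1` modulo `m ≥ 3`, is `1`. -/
theorem mink_RR (D : Dat F) (m : ℕ) (hm : 3 ≤ m) (g : Matrix (Fin 3) (Fin 3) (KD D))
    (X : Matrix (Fin 3) (Fin 3) (KD D)) (hX : ∀ i j, X i j ∈ RR D) (hg : g = 1 + (m : KD D) • X)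
    (k : ℕ) (hk : 0 < k) (h : g ^ k = 1) : g = 1 := by
  obtain ⟨Y, hY⟩ : ∃ Y : Matrix (Fin 3) (Fin 3) (RR D), (RR D).subtype.mapMatrix Y = X :=
    ⟨Matrix.of fun i j => ⟨X i j, hX i j⟩, rfl⟩
  have hinj : Function.Injective ((RR D).subtype.mapMatrix (m := Fin 3)) := by
    intro A B hAB
    refine Matrix.ext fun i j => Subtype.ext ?_
    exact congrFun (congrFun hAB i) j
  have hgY : (RR D).subtype.mapMatrix (1 + m • Y) = g := by
    rw [map_add, map_one, map_nsmul, hY, hg]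
    congr 1
    rw [← Nat.cast_smul_eq_nsmul (KD D)]
  have h1 : (1 + m • Y) ^ k = 1 := by
    refine hinj ?_
    rw [map_pow, hgY, h, map_one]
  have h2 : (1 + m • Y) = 1 := by
    refine mk_ring ?_ ?_ m hm (1 + m • Y) ⟨Y, by rw [add_sub_cancel_left]⟩ k hk h1
    · intro a Z ha hZ
      refine Matrix.ext fun i j => Subtype.ext ?_
      have h3 : a • (Z i j) = 0 := congrFun (congrFun hZ i) j
      have h4 : ((a : KD D)) * (Z i j : KD D) = 0 := by
        have := congrArg (fun w : RR D => (w : KD D)) h3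
        simpa using this
      have h5 := congrArg QuadraticAlgebra.re h4
      have h6 := congrArg QuadraticAlgebra.im h4
      rw [re_nat_mul, QuadraticAlgebra.re_zero] at h5
      rw [im_nat_mul, QuadraticAlgebra.im_zero] at h6
      have ha' : (a : F) ≠ 0 := Nat.cast_ne_zero.2 ha
      apply QuadraticAlgebra.ext
      · exact (mul_eq_zero.1 h5).resolve_left ha'
      · exact (mul_eq_zero.1 h6).resolve_left ha'
    · intro ℓ Z hℓ hZ
      obtain ⟨i, j, hij⟩ : ∃ i j, Z i j ≠ 0 := by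
        by_contra hcon
        push Not at hcon
        exact hZ (Matrix.ext fun i j => hcon i j)
      have hcase : (Z i j : KD D).re ≠ 0 ∨ (Z i j : KD D).im ≠ 0 := by
        by_contra hcon
        push Not at hcon
        refine hij (Subtype.ext ?_)
        apply QuadraticAlgebra.ext
        · exact hcon.1
        · exact hcon.2
      rcases hcase with hc | hc
      · obtain ⟨s, hs⟩ := sep_int F ℓ hℓ _ (Z i j).2.1 hc
        refine ⟨s, ?_⟩
        rintro ⟨W, hW⟩
        refine hs (W i j : KD D).re (W i j).2.1 ?_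
        have h3 : Z i j = ℓ ^ s • W i j := congrFun (congrFun hW i) j
        have h4 : (Z i j : KD D) = ((ℓ ^ s : ℕ) : KD D) * (W i j : KD D) := by
          have := congrArg (fun w : RR D => (w : KD D)) h3
          simpa using this
        rw [h4, re_nat_mul]
      · obtain ⟨s, hs⟩ := sep_int F ℓ hℓ _ (Z i j).2.2 hc
        refine ⟨s, ?_⟩
        rintro ⟨W, hW⟩
        refine hs (W i j : KD D).im (W i j).2.2 ?_
        have h3 : Z i j = ℓ ^ s • W i j := congrFun (congrFun hW i) j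
        have h4 : (Z i j : KD D) = ((ℓ ^ s : ℕ) : KD D) * (W i j : KD D) := by
          have := congrArg (fun w : RR D => (w : KD D)) h3
          simpa using this
        rw [h4, im_nat_mul]
  rw [← hgY, h2, map_one]

end CMT.D

namespace CMT

open CMT.D CMT.B

/-- The stabiliser of a point consists of elements of finite order; `Γ(m)`, `m ≥ 3`, acts freely. -/
theorem free_Gam {F : Type} [Field F] [NumberField F] [NumberField.IsTotallyReal F] (D : Dat F)
    (m : ℕ) (hm : 3 ≤ m) (g : SG D) (hg : g ∈ Gam D m) (z : ℂ × ℂ) (hz : z ∈ Ball D)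
    (h : act D g z = z) : g = 1 := by
  have hfix : ∀ k : ℕ, act D (g ^ k) z = z := by
    intro k
    induction k with
    | zero => rw [pow_zero]; exact act_one_Ball D z
    | succ k ih => rw [pow_succ, act_mul_Ball D _ hg.1 hz, h, ih]
  have hfin := pd_Gam D m {z} isCompact_singleton (by
    rintro _ rfl
    exact hz)
  have hpow : (Submonoid.powers g : Set (SG D)).Finite := by
    refine hfin.subset ?_
    rintro _ ⟨k, rfl⟩
    exact ⟨(Gam D m).pow_mem hg k, z, rfl, hfix k⟩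
  have hord : IsOfFinOrder g := finite_powers.1 hpow
  obtain ⟨k, hk, hgk⟩ := isOfFinOrder_iff_pow_eq_one.1 hord
  obtain ⟨-, X, hX, hgX⟩ := hg
  have h1 : g.1 ^ k = 1 := by
    have := congrArg Subtype.val hgk
    simpa using this
  exact Subtype.ext (mink_RR D m hm g.1 X hX hgX k hk h1)

/-- **`Γ(3)` acts freely.** -/
theorem thmFree : S_Free := fun _ _ _ _ D g hg z hz h => free_Gam D 3 le_rfl g hg z hz h

end CMT
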