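import Pool.Agent.Lib.CMT.D.Fin

/-!
# CMT, part D: the action of the arithmetic group on the ball is properly discontinuous
-/

set_option autoImplicit false

namespace CMT.D

open NumberField Matrix ComplexConjugate CMT.B

variable {F : Type} [Field F] [NumberField F]

/-- The identity for the majorant: with `N = -h(ŵ,ŵ)`, `p = h(ŵ,u)`, `a = (u₀ - w₁u₂, u₁ - w₂u₂)`,
`N h(u,u) + |p|² = N |a|² + |w · ā|²`. -/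
theorem maj_id (b : ℝ) (w : ℂ × ℂ) (u : Fin 3 → ℂ) :
    Nz ![1, 1, -b] w * (‖u 0‖ ^ 2 + ‖u 1‖ ^ 2 - b * ‖u 2‖ ^ 2) +
      ‖w.1 * conj (u 0) + w.2 * conj (u 1) - b * conj (u 2)‖ ^ 2 =
    Nz ![1, 1, -b] w * (‖u 0 - w.1 * u 2‖ ^ 2 + ‖u 1 - w.2 * u 2‖ ^ 2) +
      ‖w.1 * conj (u 0 - w.1 * u 2) + w.2 * conj (u 1 - w.2 * u 2)‖ ^ 2 := by
  have hN : Nz ![1, 1, -b] w = b - ‖w.1‖ ^ 2 - ‖w.2‖ ^ 2 := by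
    unfold Nz
    show -((1 : ℝ) * ‖w.1‖ ^ 2 + 1 * ‖w.2‖ ^ 2 + -b) = _
    ring
  rw [hN]
  simp only [Complex.sq_norm, Complex.normSq_apply, Complex.add_re, Complex.add_im, Complex.sub_re,
    Complex.sub_im, Complex.mul_re, Complex.mul_im, Complex.conj_re, Complex.conj_im,
    Complex.ofReal_re, Complex.ofReal_im]
  ring

/-- The bound for the vectors of bounded majorant. -/
theorem maj_bd {b ε Q : ℝ} (hb : 0 < b) (hε : 0 < ε) (w : ℂ × ℂ) (hw : ε ≤ Nz ![1, 1, -b] w)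
    (u : Fin 3 → ℂ)
    (hu : ‖u 0‖ ^ 2 + ‖u 1‖ ^ 2 - b * ‖u 2‖ ^ 2 +
      2 * ‖w.1 * conj (u 0) + w.2 * conj (u 1) - b * conj (u 2)‖ ^ 2 / Nz ![1, 1, -b] w ≤ Q) :
    ∀ i, ‖u i‖ ^ 2 ≤ 2 * Q + 4 * b * Q / ε + 2 * Q / ε := by
  obtain ⟨N, hN⟩ : ∃ N, Nz ![1, 1, -b] w = N := ⟨_, rfl⟩
  have hN' : N = b - ‖w.1‖ ^ 2 - ‖w.2‖ ^ 2 := by
    rw [← hN]
    unfold Nz
    show -((1 : ℝ) * ‖w.1‖ ^ 2 + 1 * ‖w.2‖ ^ 2 + -b) = _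
    ring
  have hid := maj_id b w u
  rw [hN] at hw hu hid
  have hNp : 0 < N := lt_of_lt_of_le hε hw
  obtain ⟨p, hp⟩ : ∃ p : ℂ, w.1 * conj (u 0) + w.2 * conj (u 1) - b * conj (u 2) = p := ⟨_, rfl⟩
  obtain ⟨c, hc⟩ : ∃ c : ℂ, w.1 * conj (u 0 - w.1 * u 2) + w.2 * conj (u 1 - w.2 * u 2) = c := ⟨_, rfl⟩
  rw [hp, hc] at hid
  rw [hp] at hu
  have hcp : (N : ℂ) * conj (u 2) = c - p := by
    rw [← hc, ← hp, hN']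
    push_cast
    rw [← Complex.mul_conj', ← Complex.mul_conj', map_sub, map_sub, map_mul, map_mul]
    ring
  have hu' : N * (‖u 0‖ ^ 2 + ‖u 1‖ ^ 2 - b * ‖u 2‖ ^ 2) + 2 * ‖p‖ ^ 2 ≤ Q * N := by
    have h1 := mul_le_mul_of_nonneg_right hu hNp.le
    have h2 : (‖u 0‖ ^ 2 + ‖u 1‖ ^ 2 - b * ‖u 2‖ ^ 2 + 2 * ‖p‖ ^ 2 / N) * N =
        N * (‖u 0‖ ^ 2 + ‖u 1‖ ^ 2 - b * ‖u 2‖ ^ 2) + 2 * ‖p‖ ^ 2 := by
      field_simp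
    rwa [h2] at h1
  have ha0 : 0 ≤ ‖u 0 - w.1 * u 2‖ ^ 2 := sq_nonneg _
  have ha1 : 0 ≤ ‖u 1 - w.2 * u 2‖ ^ 2 := sq_nonneg _
  have hp0 : 0 ≤ ‖p‖ ^ 2 := sq_nonneg _
  have hc0 : 0 ≤ ‖c‖ ^ 2 := sq_nonneg _
  have hall : N * (‖u 0 - w.1 * u 2‖ ^ 2 + ‖u 1 - w.2 * u 2‖ ^ 2) + ‖c‖ ^ 2 + ‖p‖ ^ 2 ≤ Q * N := by
    linarith
  have hA : ‖u 0 - w.1 * u 2‖ ^ 2 + ‖u 1 - w.2 * u 2‖ ^ 2 ≤ Q := by
    have h1 : N * (‖u 0 - w.1 * u 2‖ ^ 2 + ‖u 1 - w.2 * u 2‖ ^ 2) ≤ N * Q := by linarith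
    exact le_of_mul_le_mul_left h1 hNp
  have hQ : 0 ≤ Q := by linarith
  have hu2 : ‖u 2‖ ^ 2 ≤ 2 * Q / ε := by
    have h1 : ‖(N : ℂ) * conj (u 2)‖ ^ 2 = N ^ 2 * ‖u 2‖ ^ 2 := by
      rw [norm_mul, mul_pow, Complex.norm_real, Real.norm_of_nonneg hNp.le, RCLike.norm_conj]
    have h2 : ‖c - p‖ ^ 2 ≤ 2 * (‖c‖ ^ 2 + ‖p‖ ^ 2) := by
      have h3 := norm_sub_le c p
      have h4 : ‖c - p‖ ^ 2 ≤ (‖c‖ + ‖p‖) ^ 2 := pow_le_pow_left₀ (norm_nonneg _) h3 2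
      nlinarith [sq_nonneg (‖c‖ - ‖p‖)]
    have h5 : ‖c‖ ^ 2 + ‖p‖ ^ 2 ≤ Q * N := by nlinarith
    have h6 : N ^ 2 * ‖u 2‖ ^ 2 ≤ 2 * (Q * N) := by
      rw [← h1, hcp]
      linarith
    have h7 : N * ‖u 2‖ ^ 2 ≤ 2 * Q := by
      have : N * (N * ‖u 2‖ ^ 2) ≤ N * (2 * Q) := by nlinarith
      exact le_of_mul_le_mul_left this hNp
    rw [le_div_iff₀ hε]
    have h8 : ε * ‖u 2‖ ^ 2 ≤ N * ‖u 2‖ ^ 2 := mul_le_mul_of_nonneg_right hw (sq_nonneg _)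
    linarith
  have hw1 : ‖w.1‖ ^ 2 ≤ b := by nlinarith [sq_nonneg ‖w.2‖]
  have hw2 : ‖w.2‖ ^ 2 ≤ b := by nlinarith [sq_nonneg ‖w.1‖]
  have hQε : 0 ≤ 2 * Q / ε := by positivity
  have hbQ : 0 ≤ 4 * b * Q / ε := by positivity
  have hgen : ∀ x y : ℂ, ‖x‖ ^ 2 ≤ b → ‖y - x * u 2‖ ^ 2 ≤ Q → ‖y‖ ^ 2 ≤ 2 * Q + 4 * b * Q / ε := by
    intro x y hx hy
    have h1 : ‖y‖ ≤ ‖y - x * u 2‖ + ‖x * u 2‖ := by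
      have := norm_add_le (y - x * u 2) (x * u 2)
      rwa [sub_add_cancel] at this
    have h2 : ‖y‖ ^ 2 ≤ (‖y - x * u 2‖ + ‖x * u 2‖) ^ 2 := pow_le_pow_left₀ (norm_nonneg _) h1 2
    have h3 : ‖x * u 2‖ ^ 2 ≤ b * (2 * Q / ε) := by
      rw [norm_mul, mul_pow]
      exact mul_le_mul hx hu2 (sq_nonneg _) hb.le
    have h4 : b * (2 * Q / ε) * 2 = 4 * b * Q / ε := by ring
    nlinarith [sq_nonneg (‖y - x * u 2‖ - ‖x * u 2‖)]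
  intro i
  fin_cases i
  · have := hgen w.1 (u 0) hw1 (by linarith)
    show ‖u 0‖ ^ 2 ≤ _
    linarith
  · have := hgen w.2 (u 1) hw2 (by linarith)
    show ‖u 1‖ ^ 2 ≤ _
    linarith
  · show ‖u 2‖ ^ 2 ≤ _
    linarith

theorem sum_hh (b : ℝ) (u : Fin 3 → ℂ) :
    ∑ i, (![1, 1, -b] : Fin 3 → ℝ) i * ‖u i‖ ^ 2 = ‖u 0‖ ^ 2 + ‖u 1‖ ^ 2 - b * ‖u 2‖ ^ 2 := by
  rw [Fin.sum_univ_three]
  show (1 : ℝ) * ‖u 0‖ ^ 2 + 1 * ‖u 1‖ ^ 2 + -b * ‖u 2‖ ^ 2 = _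
  ring

theorem sum_ph (b : ℝ) (w : ℂ × ℂ) (u : Fin 3 → ℂ) :
    ∑ i, (((![1, 1, -b] : Fin 3 → ℝ) i : ℝ) : ℂ) * zh w i * conj (u i) =
      w.1 * conj (u 0) + w.2 * conj (u 1) - b * conj (u 2) := by
  rw [Fin.sum_univ_three]
  show (((1 : ℝ) : ℂ)) * w.1 * conj (u 0) + ((1 : ℝ) : ℂ) * w.2 * conj (u 1) +
    ((-b : ℝ) : ℂ) * 1 * conj (u 2) = _
  push_cast
  ring

/-- The majorant is invariant. -/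
theorem maj_inv {b : ℝ} {g : Matrix (Fin 3) (Fin 3) ℂ} (hg : IsU ![1, 1, -b] g) {z : ℂ × ℂ}
    (hj : jj g z ≠ 0) (hz : Nz ![1, 1, -b] z ≠ 0) (v : Fin 3 → ℂ) :
    (‖(g *ᵥ v) 0‖ ^ 2 + ‖(g *ᵥ v) 1‖ ^ 2 - b * ‖(g *ᵥ v) 2‖ ^ 2) +
      2 * ‖(B.act g z).1 * conj ((g *ᵥ v) 0) + (B.act g z).2 * conj ((g *ᵥ v) 1) -
        b * conj ((g *ᵥ v) 2)‖ ^ 2 / Nz ![1, 1, -b] (B.act g z) =
    (‖v 0‖ ^ 2 + ‖v 1‖ ^ 2 - b * ‖v 2‖ ^ 2) +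
      2 * ‖z.1 * conj (v 0) + z.2 * conj (v 1) - b * conj (v 2)‖ ^ 2 / Nz ![1, 1, -b] z := by
  have h1 := isU_norm hg v
  rw [sum_hh, sum_hh] at h1
  have h2 := pz_act_snd hg hj v
  rw [sum_ph, sum_ph] at h2
  rw [h1, h2, Nz_act hg hj, norm_mul, norm_inv, mul_pow, inv_pow]
  have hn : ‖jj g z‖ ^ 2 ≠ 0 := pow_ne_zero _ (norm_ne_zero_iff.mpr hj)
  congr 1
  field_simp

/-- **The bound at the place `t0`.** -/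
theorem bd_ball {b ε : ℝ} (hb : 0 < b) (hε : 0 < ε) : ∃ C : ℝ, ∀ (g : Matrix (Fin 3) (Fin 3) ℂ)
    (z : ℂ × ℂ), IsU ![1, 1, -b] g → ε ≤ Nz ![1, 1, -b] z → ε ≤ Nz ![1, 1, -b] (B.act g z) →
    ∀ i j, ‖g i j‖ ^ 2 ≤ C := by
  obtain ⟨Q, hQ⟩ : ∃ Q : ℝ, Q = 1 + 2 * b / ε + 2 * b ^ 2 / ε := ⟨_, rfl⟩
  refine ⟨2 * Q + 4 * b * Q / ε + 2 * Q / ε, ?_⟩
  intro g z hg hz hz' i j
  have hzb : z ∈ ball ![1, 1, -b] := lt_of_lt_of_le hε hz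
  have hj : jj g z ≠ 0 := jj_ne_zero (h := ![1, 1, -b]) one_pos one_pos hg hzb
  have hN0 : 0 < Nz ![1, 1, -b] z := hzb
  have hN' : Nz ![1, 1, -b] z = b - ‖z.1‖ ^ 2 - ‖z.2‖ ^ 2 := by
    unfold Nz
    show -((1 : ℝ) * ‖z.1‖ ^ 2 + 1 * ‖z.2‖ ^ 2 + -b) = _
    ring
  have hcol : ∀ i, (g *ᵥ (Pi.single j 1 : Fin 3 → ℂ)) i = g i j := by
    intro i
    rw [mulVec_single_one]
    rfl
  have hinv := maj_inv hg hj hN0.ne' (Pi.single j 1 : Fin 3 → ℂ)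
  have hbd : (‖(Pi.single j 1 : Fin 3 → ℂ) 0‖ ^ 2 + ‖(Pi.single j 1 : Fin 3 → ℂ) 1‖ ^ 2 -
      b * ‖(Pi.single j 1 : Fin 3 → ℂ) 2‖ ^ 2) +
      2 * ‖z.1 * conj ((Pi.single j 1 : Fin 3 → ℂ) 0) + z.2 * conj ((Pi.single j 1 : Fin 3 → ℂ) 1) -
        b * conj ((Pi.single j 1 : Fin 3 → ℂ) 2)‖ ^ 2 / Nz ![1, 1, -b] z ≤ Q := by
    have hz1 : ‖z.1‖ ^ 2 ≤ b := by nlinarith [sq_nonneg ‖z.2‖]
    have hz2 : ‖z.2‖ ^ 2 ≤ b := by nlinarith [sq_nonneg ‖z.1‖]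
    have key : ∀ x : ℝ, 0 ≤ x → 2 * x / Nz ![1, 1, -b] z ≤ 2 * x / ε := by
      intro x hx
      exact div_le_div_of_nonneg_left (by positivity) hε hz
    have m1 : 2 * ‖z.1‖ ^ 2 / ε ≤ 2 * b / ε := by gcongr
    have m2 : 2 * ‖z.2‖ ^ 2 / ε ≤ 2 * b / ε := by gcongr
    have k1 : 0 ≤ 2 * b / ε := by positivity
    have k2 : 0 ≤ 2 * b ^ 2 / ε := by positivity
    fin_cases j
    · have e : (‖(Pi.single (0 : Fin 3) 1 : Fin 3 → ℂ) 0‖ ^ 2 + ‖(Pi.single (0 : Fin 3) 1 : Fin 3 → ℂ) 1‖ ^ 2 -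
          b * ‖(Pi.single (0 : Fin 3) 1 : Fin 3 → ℂ) 2‖ ^ 2) +
          2 * ‖z.1 * conj ((Pi.single (0 : Fin 3) 1 : Fin 3 → ℂ) 0) + z.2 * conj ((Pi.single (0 : Fin 3) 1 : Fin 3 → ℂ) 1) -
          b * conj ((Pi.single (0 : Fin 3) 1 : Fin 3 → ℂ) 2)‖ ^ 2 / Nz ![1, 1, -b] z =
          1 + 2 * ‖z.1‖ ^ 2 / Nz ![1, 1, -b] z := by
        simp
      refine (le_of_eq e).trans ?_
      have := key (‖z.1‖ ^ 2) (sq_nonneg _)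
      linarith
    · have e : (‖(Pi.single (1 : Fin 3) 1 : Fin 3 → ℂ) 0‖ ^ 2 + ‖(Pi.single (1 : Fin 3) 1 : Fin 3 → ℂ) 1‖ ^ 2 -
          b * ‖(Pi.single (1 : Fin 3) 1 : Fin 3 → ℂ) 2‖ ^ 2) +
          2 * ‖z.1 * conj ((Pi.single (1 : Fin 3) 1 : Fin 3 → ℂ) 0) + z.2 * conj ((Pi.single (1 : Fin 3) 1 : Fin 3 → ℂ) 1) -
          b * conj ((Pi.single (1 : Fin 3) 1 : Fin 3 → ℂ) 2)‖ ^ 2 / Nz ![1, 1, -b] z =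
          1 + 2 * ‖z.2‖ ^ 2 / Nz ![1, 1, -b] z := by
        simp
      refine (le_of_eq e).trans ?_
      have := key (‖z.2‖ ^ 2) (sq_nonneg _)
      linarith
    · have e : (‖(Pi.single (2 : Fin 3) 1 : Fin 3 → ℂ) 0‖ ^ 2 + ‖(Pi.single (2 : Fin 3) 1 : Fin 3 → ℂ) 1‖ ^ 2 -
          b * ‖(Pi.single (2 : Fin 3) 1 : Fin 3 → ℂ) 2‖ ^ 2) +
          2 * ‖z.1 * conj ((Pi.single (2 : Fin 3) 1 : Fin 3 → ℂ) 0) + z.2 * conj ((Pi.single (2 : Fin 3) 1 : Fin 3 → ℂ) 1) -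
          b * conj ((Pi.single (2 : Fin 3) 1 : Fin 3 → ℂ) 2)‖ ^ 2 / Nz ![1, 1, -b] z =
          -b + 2 * b ^ 2 / Nz ![1, 1, -b] z := by
        simp
      refine (le_of_eq e).trans ?_
      have := key (b ^ 2) (sq_nonneg _)
      linarith
  rw [← hinv] at hbd
  have h := maj_bd hb hε (B.act g z) hz' (g *ᵥ (Pi.single j 1 : Fin 3 → ℂ)) hbd i
  rwa [hcol i] at h

/-- **The bound at the definite places.** -/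
theorem bd_def {b : ℝ} (hb : b < 0) : ∃ C : ℝ, ∀ (g : Matrix (Fin 3) (Fin 3) ℂ),
    IsU ![1, 1, -b] g → ∀ i j, ‖g i j‖ ^ 2 ≤ C := by
  refine ⟨(1 - b) + (1 - b) / (-b), ?_⟩
  intro g hg i j
  have hcol : ∀ i, (g *ᵥ (Pi.single j 1 : Fin 3 → ℂ)) i = g i j := by
    intro i
    rw [mulVec_single_one]
    rfl
  have h1 := isU_norm hg (Pi.single j 1 : Fin 3 → ℂ)
  rw [sum_hh, sum_hh, hcol, hcol, hcol] at h1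
  have h2 : ‖(Pi.single j 1 : Fin 3 → ℂ) 0‖ ^ 2 + ‖(Pi.single j 1 : Fin 3 → ℂ) 1‖ ^ 2 -
      b * ‖(Pi.single j 1 : Fin 3 → ℂ) 2‖ ^ 2 ≤ 1 - b := by
    fin_cases j
    · simp; linarith
    · simp; linarith
    · simp
  have h3 : 0 ≤ ‖g 0 j‖ ^ 2 := sq_nonneg _
  have h4 : 0 ≤ ‖g 1 j‖ ^ 2 := sq_nonneg _
  have h5 : 0 ≤ ‖g 2 j‖ ^ 2 := sq_nonneg _
  have h6 : 0 ≤ (-b) * ‖g 2 j‖ ^ 2 := mul_nonneg (by linarith) h5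
  have h7 : 0 ≤ (1 - b) / (-b) := div_nonneg (by linarith) (by linarith)
  fin_cases i
  · show ‖g 0 j‖ ^ 2 ≤ _
    linarith
  · show ‖g 1 j‖ ^ 2 ≤ _
    linarith
  · show ‖g 2 j‖ ^ 2 ≤ _
    have h8 : ‖g 2 j‖ ^ 2 ≤ (1 - b) / (-b) := by
      rw [le_div_iff₀ (by linarith)]
      linarith
    linarith

/-- **Proper discontinuity.** -/
theorem pd [IsTotallyReal F] (D : Dat F) (C : Set (ℂ × ℂ)) (hC : IsCompact C) (hCB : C ⊆ Ball D) :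
    {g : SG D | IsIso D g ∧ (∀ i j, g.1 i j ∈ RR D) ∧ ∃ z ∈ C, CMT.act D g z ∈ C}.Finite := by
  classical
  rcases C.eq_empty_or_nonempty with hCe | hCne
  · refine Set.Finite.subset Set.finite_empty ?_
    rintro g ⟨-, -, z, hz, -⟩
    rw [hCe] at hz
    exact hz.elim
  obtain ⟨z0, hz0, hmin⟩ := hC.exists_isMinOn hCne (f := fun z => D.t0 D.bet - ‖z.1‖ ^ 2 - ‖z.2‖ ^ 2)
    (by fun_prop)
  obtain ⟨ε, hε⟩ : ∃ ε, D.t0 D.bet - ‖z0.1‖ ^ 2 - ‖z0.2‖ ^ 2 = ε := ⟨_, rfl⟩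
  have hε0 : 0 < ε := by
    have h1 : ‖z0.1‖ ^ 2 + ‖z0.2‖ ^ 2 < D.t0 D.bet := hCB hz0
    linarith
  have hCε : ∀ z ∈ C, ε ≤ Nz ![1, 1, -(D.t0 D.bet)] z := by
    intro z hz
    have h1 := hmin hz
    have h2 : Nz ![1, 1, -(D.t0 D.bet)] z = D.t0 D.bet - ‖z.1‖ ^ 2 - ‖z.2‖ ^ 2 := by
      unfold Nz
      show -((1 : ℝ) * ‖z.1‖ ^ 2 + 1 * ‖z.2‖ ^ 2 + -(D.t0 D.bet)) = _
      ring
    rw [h2, ← hε]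
    exact h1
  have hbd : ∀ t : F →+* ℝ, ∃ c : ℝ, ∀ g : SG D, IsIso D g → (∃ z ∈ C, CMT.act D g z ∈ C) →
      ∀ i j, ‖ev D t (g.1 i j)‖ ^ 2 ≤ c := by
    intro t
    by_cases ht : t = D.t0
    · subst ht
      obtain ⟨c, hc⟩ := bd_ball D.bet_pos hε0
      refine ⟨c, ?_⟩
      rintro g hg ⟨z, hz, hz'⟩ i j
      exact hc (mt D D.t0 g) z (mt_isU D D.t0 hg) (hCε z hz) (hCε _ hz') i j
    · obtain ⟨c, hc⟩ := bd_def (D.bet_neg t ht)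
      exact ⟨c, fun g hg _ i j => hc (mt D t g) (mt_isU D t hg) i j⟩
  choose c hc using hbd
  obtain ⟨B, hB⟩ : ∃ B : ℝ, ∀ t : F →+* ℝ, Real.sqrt (c t) ≤ B := by
    obtain ⟨B, hB⟩ := (Set.finite_range fun t : F →+* ℝ => Real.sqrt (c t)).bddAbove
    exact ⟨B, fun t => hB ⟨t, rfl⟩⟩
  refine Set.Finite.of_finite_image (f := fun g : SG D => g.1) ((finite_mat D B).subset ?_)
    Subtype.val_injective.injOn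
  rintro _ ⟨g, ⟨hg, hint, hex⟩, rfl⟩
  intro i j
  refine ⟨hint i j, fun t => ?_⟩
  exact (Real.le_sqrt_of_sq_le (hc t g hg hex i j)).trans (hB t)

/-- Proper discontinuity, for the congruence subgroups. -/
theorem pd_Gam [IsTotallyReal F] (D : Dat F) (n : ℕ) (C : Set (ℂ × ℂ)) (hC : IsCompact C)
    (hCB : C ⊆ Ball D) : {g : SG D | g ∈ Gam D n ∧ ∃ z ∈ C, CMT.act D g z ∈ C}.Finite := by
  refine (pd D C hC hCB).subset ?_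
  rintro g ⟨hg, hz⟩
  exact ⟨hg.1, fun i j => isCong_entry D hg.2 i j, hz⟩

end CMT.D
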