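import Pool.Agent.Lib.CMT.Iface
import Pool.Agent.Lib.CMT.D.Pd
import Pool.Agent.Lib.CMT.D.Chi

/-!
# CMT, part D: weights exist
-/

set_option autoImplicit false

namespace CMT.D

open NumberField Matrix CMT.B

variable {F : Type} [Field F] [NumberField F]

theorem isOpen_Ball (D : Dat F) : IsOpen (Ball D) := by
  have h : Ball D = (fun z : ℂ × ℂ => ‖z.1‖ ^ 2 + ‖z.2‖ ^ 2) ⁻¹' Set.Iio (D.t0 D.bet) := rfl
  rw [h]
  exact isOpen_Iio.preimage (by fun_prop)

theorem continuousOn_act (D : Dat F) {g : SG D} (hg : IsIso D g) : ContinuousOn (CMT.act D g) (Ball D) :=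
  fun _ hz => (hasFDerivAt_act_Ball D hg hz).continuousAt.continuousWithinAt

/-- A subgroup of `Γ(n)` acts on the ball, properly discontinuously. -/
theorem pdAct [IsTotallyReal F] (D : Dat F) (n : ℕ) (G : Subgroup (SG D)) (hG : G ≤ Gam D n) :
    PdAct (Ball D) (fun (g : G) => CMT.act D (g : SG D)) where
  maps g z hz := act_mem_Ball D (hG g.2).1 hz
  one z _ := act_one_Ball D z
  mul g g' z hz := act_mul_Ball D _ (hG g'.2).1 hz
  cont g := continuousOn_act D (hG g.2).1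
  fin C hC hCU := by
    have h1 := pd_Gam D n C hC hCU
    refine Set.Finite.of_finite_image (f := fun g : G => (g : SG D)) (h1.subset ?_)
      Subtype.val_injective.injOn
    rintro _ ⟨g, ⟨z, hz, hz'⟩, rfl⟩
    exact ⟨hG g.2, z, hz, hz'⟩

theorem Gam_le_one (D : Dat F) (n : ℕ) : Gam D n ≤ Gam D 1 := by
  rintro g ⟨h1, X, hX, hgX⟩
  refine ⟨h1, (n : KD D) • X, ?_, ?_⟩
  · intro i j
    rw [Matrix.smul_apply, smul_eq_mul]
    exact (RR D).mul_mem (natCast_mem (RR D) n) (hX i j)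
  · rw [hgX, Nat.cast_one, one_smul]

end CMT.D

namespace CMT

open CMT.D

/-- **Proper discontinuity.** -/
theorem thmPd : S_Pd := fun _ _ _ _ D C hC hCB => pd_Gam D 1 C hC hCB

/-- **Weights exist**, if the groups are cocompact. -/
theorem thmWt (h : S_Cpt) : S_Wt := by
  intro F _ _ _ hd D G hG
  obtain ⟨C, hC, hCB, hCc⟩ := h F hd D G (hG.1.trans (Gam_le_one D 3)) hG.2
  obtain ⟨χ, hχ⟩ := (pdAct D 3 G hG.1).exists_wt (isOpen_Ball D) C hC hCB (by
    intro z hz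
    obtain ⟨g, hg, hgz⟩ := hCc z hz
    exact ⟨⟨g, hg⟩, hgz⟩)
  exact ⟨χ, hχ.cont, hχ.nonneg, hχ.comp, hχ.supp, hχ.sum⟩

end CMT
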